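import Mathlib

namespace Pool.Agent.LibDiag

open Set

section general

variable {X : Type*} [CompleteLinearOrder X]

theorem fixed_of_finite (E : Set X) (hE : E.Finite) (T : X ≃o X)
    (hT : ∀ z ∈ E, T z ∈ E) {z : X} (hz : z ∈ E) : T z = z := by
  by_contra hne
  have hmem : ∀ n : ℕ, T^[n] z ∈ E := by
    intro n
    induction n with
    | zero => simpa using hz
    | succ n ih => rw [Function.iterate_succ_apply']; exact hT _ ih
  rcases lt_or_gt_of_ne hne with hlt | hgt
  · have hs : StrictAnti (fun n : ℕ => T^[n] z) :=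
      strictAnti_nat_of_succ_lt (fun n => by
        rw [Function.iterate_succ_apply]
        exact (T.strictMono.iterate n) hlt)
    exact (Set.infinite_of_injective_forall_mem hs.injective hmem) hE
  · have hs : StrictMono (fun n : ℕ => T^[n] z) :=
      strictMono_nat_of_lt_succ (fun n => by
        rw [Function.iterate_succ_apply]
        exact (T.strictMono.iterate n) hgt)
    exact (Set.infinite_of_injective_forall_mem hs.injective hmem) hE

/-- fixed points of `h` that are limits from the right of moved points -/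
def ER (h : X ≃o X) : Set X := {z | h z = z ∧ ∀ c, z < c → ∃ y, z < y ∧ y < c ∧ h y ≠ y}

/-- fixed points of `h` that are limits from the left of moved points -/
def EL (h : X ≃o X) : Set X := {z | h z = z ∧ ∀ c, c < z → ∃ y, c < y ∧ y < z ∧ h y ≠ y}

theorem ER_map {h T : X ≃o X} (hc : ∀ z, T (h z) = h (T z)) {z : X} (hz : z ∈ ER h) :
    T z ∈ ER h := by
  refine ⟨by rw [← hc, hz.1], fun c hcz => ?_⟩
  have h1 : z < T.symm c := by
    rw [← T.lt_iff_lt]; simpa using hcz
  obtain ⟨y, hy1, hy2, hy3⟩ := hz.2 _ h1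
  refine ⟨T y, T.lt_iff_lt.2 hy1, ?_, ?_⟩
  · have := T.lt_iff_lt.2 hy2; simpa using this
  · rw [← hc]; intro h4; exact hy3 (T.injective h4)

theorem EL_map {h T : X ≃o X} (hc : ∀ z, T (h z) = h (T z)) {z : X} (hz : z ∈ EL h) :
    T z ∈ EL h := by
  refine ⟨by rw [← hc, hz.1], fun c hcz => ?_⟩
  have h1 : T.symm c < z := by
    rw [← T.lt_iff_lt]; simpa using hcz
  obtain ⟨y, hy1, hy2, hy3⟩ := hz.2 _ h1
  refine ⟨T y, ?_, T.lt_iff_lt.2 hy2, ?_⟩
  · have := T.lt_iff_lt.2 hy1; simpa using this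
  · rw [← hc]; intro h4; exact hy3 (T.injective h4)

theorem fix_ER {h T : X ≃o X} (hc : ∀ z, T (h z) = h (T z)) (hfin : (ER h).Finite) {z : X}
    (hz : z ∈ ER h) : T z = z :=
  fixed_of_finite (ER h) hfin T (fun _ hw => ER_map hc hw) hz

theorem fix_EL {h T : X ≃o X} (hc : ∀ z, T (h z) = h (T z)) (hfin : (EL h).Finite) {z : X}
    (hz : z ∈ EL h) : T z = z :=
  fixed_of_finite (EL h) hfin T (fun _ hw => EL_map hc hw) hz

/-- An order isomorphism matching up two sets matches their infima. -/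
theorem map_inf_of_iff (L : X ≃o X) {A B : Set X} (h : ∀ z, z ∈ A ↔ L z ∈ B) :
    L (sInf A) = sInf B := by
  apply le_antisymm
  · apply le_sInf
    intro w hw
    have h1 : L.symm w ∈ A := by rw [h]; simpa using hw
    have h2 : sInf A ≤ L.symm w := sInf_le h1
    have := L.le_iff_le.2 h2
    simpa using this
  · rw [← L.symm.le_iff_le]
    simp only [OrderIso.symm_apply_apply]
    apply le_sInf
    intro z hz
    rw [← L.le_iff_le]
    simp only [OrderIso.apply_symm_apply]
    exact sInf_le ((h z).1 hz)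

theorem map_sup_of_iff (L : X ≃o X) {A B : Set X} (h : ∀ z, z ∈ A ↔ L z ∈ B) :
    L (sSup A) = sSup B := by
  apply le_antisymm
  · rw [← L.symm.le_iff_le]
    simp only [OrderIso.symm_apply_apply]
    apply sSup_le
    intro z hz
    rw [← L.le_iff_le]
    simp only [OrderIso.apply_symm_apply]
    exact le_sSup ((h z).1 hz)
  · apply sSup_le
    intro w hw
    have h1 : L.symm w ∈ A := by rw [h]; simpa using hw
    have h2 : L.symm w ≤ sSup A := le_sSup h1
    have := L.le_iff_le.2 h2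
    simpa using this

end general

section system

/-- The relations satisfied by the images of the chosen elements of the diagram group. -/
structure Sys {X : Type*} [CompleteLinearOrder X] (S0 S1 T : X ≃o X) (h : ℤ → (X ≃o X)) :
    Prop where
  s : ∀ i z, S0 (h i z) = h (i + 1) (S0 z)
  r1 : ∀ i, i ≤ 0 → ∀ z, S1 (h i z) = h i (S1 z)
  r2 : ∀ i, 1 ≤ i → ∀ z, S1 (h i z) = h (i + 1) (S1 z)
  r3 : ∀ i z, h 0 (h i z) = h i (h 0 z)
  r4 : ∀ i, (i ≤ -1 ∨ 2 ≤ i) → ∀ z, T (h i z) = h i (T z)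

/-- `p < q` are consecutive common fixed points of `S0, S1, h 0`. -/
structure Orb {X : Type*} [CompleteLinearOrder X] (S0 S1 : X ≃o X) (h : ℤ → (X ≃o X))
    (p q : X) : Prop where
  lt : p < q
  p0 : S0 p = p
  p1 : S1 p = p
  ph : h 0 p = p
  q0 : S0 q = q
  q1 : S1 q = q
  qh : h 0 q = q
  no : ∀ z, p < z → z < q → S0 z = z → S1 z = z → h 0 z = z → False

variable {X : Type*} [CompleteLinearOrder X] {S0 S1 T : X ≃o X} {h : ℤ → (X ≃o X)}

theorem Sys.fix_all (hs : Sys S0 S1 T h) {z : X} (z0 : S0 z = z) (zh : h 0 z = z) :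
    ∀ i, h i z = z := by
  intro i
  induction i using Int.induction_on with
  | zero => exact zh
  | succ i ih =>
    have := hs.s i z
    rw [ih, z0] at this
    exact this.symm
  | pred i ih =>
    have := hs.s (-(i:ℤ) - 1) z
    rw [z0] at this
    simp only [sub_add_cancel] at this
    rw [ih] at this
    apply S0.injective
    rw [this, z0]

/-- moved points of `h i` between `p` and `q` -/
def Mv (h : ℤ → (X ≃o X)) (p q : X) (i : ℤ) : Set X := {z | p < z ∧ z < q ∧ h i z ≠ z}

theorem Mv_iff {h : ℤ → (X ≃o X)} {p q : X} {i j : ℤ} {L : X ≃o X} (hp : L p = p) (hq : L q = q)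
    (hL : ∀ z, L (h i z) = h j (L z)) (z : X) : z ∈ Mv h p q i ↔ L z ∈ Mv h p q j := by
  unfold Mv
  simp only [Set.mem_ofPred_eq]
  have h1 : p < z ↔ p < L z := by rw [← L.lt_iff_lt, hp]
  have h2 : z < q ↔ L z < q := by rw [← L.lt_iff_lt, hq]
  have h3 : h i z ≠ z ↔ h j (L z) ≠ L z := by
    rw [← hL]
    exact (L.injective.ne_iff).symm
  rw [h1, h2, h3]


theorem Mv_inf {h : ℤ → (X ≃o X)} {p q : X} {i j : ℤ} {L : X ≃o X} (hp : L p = p) (hq : L q = q)
    (hL : ∀ z, L (h i z) = h j (L z)) : L (sInf (Mv h p q i)) = sInf (Mv h p q j) :=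
  map_inf_of_iff L (Mv_iff hp hq hL)

theorem Mv_sup {h : ℤ → (X ≃o X)} {p q : X} {i j : ℤ} {L : X ≃o X} (hp : L p = p) (hq : L q = q)
    (hL : ∀ z, L (h i z) = h j (L z)) : L (sSup (Mv h p q i)) = sSup (Mv h p q j) :=
  map_sup_of_iff L (Mv_iff hp hq hL)

/-- Sequence of infima of the sets of moved points. -/
noncomputable def u (h : ℤ → (X ≃o X)) (p q : X) (i : ℤ) : X := sInf (Mv h p q i)

/-- Sequence of suprema of the sets of moved points. -/
noncomputable def v (h : ℤ → (X ≃o X)) (p q : X) (i : ℤ) : X := sSup (Mv h p q i)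

section case1

variable {p q : X} (hs : Sys S0 S1 T h) (ho : Orb S0 S1 h p q)
include hs ho

theorem u_S0 (i : ℤ) : S0 (u h p q i) = u h p q (i + 1) := Mv_inf ho.p0 ho.q0 (hs.s i)
theorem v_S0 (i : ℤ) : S0 (v h p q i) = v h p q (i + 1) := Mv_sup ho.p0 ho.q0 (hs.s i)
theorem u_S1a (i : ℤ) (hi : i ≤ 0) : S1 (u h p q i) = u h p q i := Mv_inf ho.p1 ho.q1 (hs.r1 i hi)
theorem v_S1a (i : ℤ) (hi : i ≤ 0) : S1 (v h p q i) = v h p q i := Mv_sup ho.p1 ho.q1 (hs.r1 i hi)
theorem u_S1b (i : ℤ) (hi : 1 ≤ i) : S1 (u h p q i) = u h p q (i + 1) :=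
  Mv_inf ho.p1 ho.q1 (hs.r2 i hi)
theorem v_S1b (i : ℤ) (hi : 1 ≤ i) : S1 (v h p q i) = v h p q (i + 1) :=
  Mv_sup ho.p1 ho.q1 (hs.r2 i hi)
theorem u_h0 (i : ℤ) : h 0 (u h p q i) = u h p q i := Mv_inf ho.ph ho.qh (hs.r3 i)
theorem v_h0 (i : ℤ) : h 0 (v h p q i) = v h p q i := Mv_sup ho.ph ho.qh (hs.r3 i)

theorem Mv_nonempty_all (h0 : (Mv h p q 0).Nonempty) : ∀ i, (Mv h p q i).Nonempty := by
  intro i
  induction i using Int.induction_on with
  | zero => exact h0
  | succ i ih =>
    obtain ⟨z, hz⟩ := ih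
    exact ⟨S0 z, (Mv_iff ho.p0 ho.q0 (hs.s i) z).1 hz⟩
  | pred i ih =>
    obtain ⟨z, hz⟩ := ih
    refine ⟨S0.symm z, ?_⟩
    have h1 := Mv_iff (i := -(i:ℤ) - 1) ho.p0 ho.q0 (hs.s (-(i:ℤ) - 1)) (S0.symm z)
    rw [h1]
    simpa using hz

omit hs in
/-- A common fixed point strictly to the right of `p` is to the right of `q`. -/
theorem ge_q {m : X} (hm : p < m) (m0 : S0 m = m) (m1 : S1 m = m) (mh : h 0 m = m) : q ≤ m := by
  by_contra hlt
  exact ho.no m hm (not_le.1 hlt) m0 m1 mh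

omit hs in
theorem le_p {m : X} (hm : m < q) (m0 : S0 m = m) (m1 : S1 m = m) (mh : h 0 m = m) : m ≤ p := by
  by_contra hlt
  exact ho.no m (not_le.1 hlt) hm m0 m1 mh


theorem u_fix (i : ℤ) : h i (u h p q i) = u h p q i :=
  Mv_inf (hs.fix_all ho.p0 ho.ph i) (hs.fix_all ho.q0 ho.qh i) (fun _ => rfl)

theorem v_fix (i : ℤ) : h i (v h p q i) = v h p q i :=
  Mv_sup (hs.fix_all ho.p0 ho.ph i) (hs.fix_all ho.q0 ho.qh i) (fun _ => rfl)

theorem lt_of_mem {i : ℤ} {z : X} (hz : z ∈ Mv h p q i) : u h p q i < z := by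
  refine lt_of_le_of_ne (sInf_le hz) ?_
  intro h1
  apply hz.2.2
  rw [← h1]
  exact u_fix hs ho i

theorem gt_of_mem {i : ℤ} {z : X} (hz : z ∈ Mv h p q i) : z < v h p q i := by
  refine lt_of_le_of_ne (le_sSup hz) ?_
  intro h1
  apply hz.2.2
  rw [h1]
  exact v_fix hs ho i

omit hs ho in
theorem p_le_u (i : ℤ) : p ≤ u h p q i := le_sInf fun _ hz => hz.1.le

omit hs ho in
theorem v_le_q (i : ℤ) : v h p q i ≤ q := sSup_le fun _ hz => hz.2.1.le

theorem u_lt_v (hne : ∀ i, (Mv h p q i).Nonempty) (i : ℤ) : u h p q i < v h p q i := by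
  obtain ⟨z, hz⟩ := hne i
  exact (lt_of_mem hs ho hz).trans (gt_of_mem hs ho hz)

theorem u_mem_ER (i : ℤ) : u h p q i ∈ ER (h i) := by
  refine ⟨u_fix hs ho i, fun c hc => ?_⟩
  obtain ⟨y, hy, hyc⟩ := sInf_lt_iff.1 hc
  exact ⟨y, lt_of_mem hs ho hy, hyc, hy.2.2⟩

theorem T_u (hfin : ∀ i, (ER (h i)).Finite) (i : ℤ)
    (hi : i ≤ -1 ∨ 2 ≤ i) : T (u h p q i) = u h p q i :=
  fix_ER (hs.r4 i hi) (hfin i) (u_mem_ER hs ho i)

/-- If the sequence of infima is monotone or antitone then its supremum and infimum are common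
fixed points. -/
theorem sup_fixed (hmono : (∀ i, u h p q i ≤ u h p q (i + 1)) ∨ (∀ i, u h p q (i + 1) ≤ u h p q i)) :
    S0 (sSup (range (u h p q))) = sSup (range (u h p q)) ∧
    S1 (sSup (range (u h p q))) = sSup (range (u h p q)) ∧
    h 0 (sSup (range (u h p q))) = sSup (range (u h p q)) := by
  refine ⟨?_, ?_, ?_⟩
  · apply map_sup_of_iff
    intro z
    constructor
    · rintro ⟨i, rfl⟩
      exact ⟨i + 1, (u_S0 hs ho i).symm⟩
    · rintro ⟨i, hi⟩
      refine ⟨i - 1, ?_⟩
      apply S0.injective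
      rw [u_S0 hs ho, sub_add_cancel, hi]
  · apply le_antisymm
    · rw [← S1.symm.le_iff_le]
      simp only [OrderIso.symm_apply_apply]
      apply sSup_le
      rintro _ ⟨i, rfl⟩
      rw [← S1.le_iff_le]
      simp only [OrderIso.apply_symm_apply]
      rcases le_or_gt i 0 with hi | hi
      · rw [u_S1a hs ho i hi]; exact le_sSup ⟨i, rfl⟩
      · rw [u_S1b hs ho i hi]; exact le_sSup ⟨i + 1, rfl⟩
    · apply sSup_le
      rintro _ ⟨i, rfl⟩
      rcases hmono with hm | hm
      · rcases le_or_gt i 0 with hi | hi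
        · rw [← u_S1a hs ho i hi]; exact S1.monotone (le_sSup ⟨i, rfl⟩)
        · refine (hm i).trans ?_
          rw [← u_S1b hs ho i hi]; exact S1.monotone (le_sSup ⟨i, rfl⟩)
      · rcases le_or_gt i 0 with hi | hi
        · rw [← u_S1a hs ho i hi]; exact S1.monotone (le_sSup ⟨i, rfl⟩)
        · have h1 : u h p q i ≤ u h p q 0 := (antitone_int_of_succ_le hm) hi.le
          refine h1.trans ?_
          rw [← u_S1a hs ho 0 le_rfl]; exact S1.monotone (le_sSup ⟨0, rfl⟩)
  · apply map_sup_of_iff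
    intro z
    constructor
    · rintro ⟨i, rfl⟩
      exact ⟨i, (u_h0 hs ho i).symm⟩
    · rintro ⟨i, hi⟩
      refine ⟨i, ?_⟩
      apply (h 0).injective
      rw [u_h0 hs ho, hi]

theorem inf_fixed (hmono : (∀ i, u h p q i ≤ u h p q (i + 1)) ∨ (∀ i, u h p q (i + 1) ≤ u h p q i)) :
    S0 (sInf (range (u h p q))) = sInf (range (u h p q)) ∧
    S1 (sInf (range (u h p q))) = sInf (range (u h p q)) ∧
    h 0 (sInf (range (u h p q))) = sInf (range (u h p q)) := by
  refine ⟨?_, ?_, ?_⟩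
  · apply map_inf_of_iff
    intro z
    constructor
    · rintro ⟨i, rfl⟩
      exact ⟨i + 1, (u_S0 hs ho i).symm⟩
    · rintro ⟨i, hi⟩
      refine ⟨i - 1, ?_⟩
      apply S0.injective
      rw [u_S0 hs ho, sub_add_cancel, hi]
  · apply le_antisymm
    · apply le_sInf
      rintro _ ⟨i, rfl⟩
      rcases hmono with hm | hm
      · rcases le_or_gt i 0 with hi | hi
        · rw [← u_S1a hs ho i hi]; exact S1.monotone (sInf_le ⟨i, rfl⟩)
        · have h1 : u h p q 0 ≤ u h p q i := (monotone_int_of_le_succ hm) hi.le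
          refine le_trans ?_ h1
          rw [← u_S1a hs ho 0 le_rfl]; exact S1.monotone (sInf_le ⟨0, rfl⟩)
      · rcases le_or_gt i 0 with hi | hi
        · rw [← u_S1a hs ho i hi]; exact S1.monotone (sInf_le ⟨i, rfl⟩)
        · refine le_trans ?_ (hm i)
          rw [← u_S1b hs ho i hi]; exact S1.monotone (sInf_le ⟨i, rfl⟩)
    · rw [← S1.symm.le_iff_le]
      simp only [OrderIso.symm_apply_apply]
      apply le_sInf
      rintro _ ⟨i, rfl⟩
      rw [← S1.le_iff_le]
      simp only [OrderIso.apply_symm_apply]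
      rcases le_or_gt i 0 with hi | hi
      · rw [u_S1a hs ho i hi]; exact sInf_le ⟨i, rfl⟩
      · rw [u_S1b hs ho i hi]; exact sInf_le ⟨i + 1, rfl⟩
  · apply map_inf_of_iff
    intro z
    constructor
    · rintro ⟨i, rfl⟩
      exact ⟨i, (u_h0 hs ho i).symm⟩
    · rintro ⟨i, hi⟩
      refine ⟨i, ?_⟩
      apply (h 0).injective
      rw [u_h0 hs ho, hi]


omit hs ho in
/-- An order isomorphism with fixed points arbitrarily close to `q` from the left fixes `q`. -/
theorem fix_of_approx_left (L : X ≃o X) {q : X} (hL : ∀ c, c < q → ∃ w, c < w ∧ w ≤ q ∧ L w = w) :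
    L q = q := by
  apply le_antisymm
  · rw [← L.symm.le_iff_le]
    simp only [OrderIso.symm_apply_apply]
    apply le_of_forall_lt
    intro c hc
    obtain ⟨w, h1, h2, h3⟩ := hL c hc
    refine lt_of_lt_of_le h1 ?_
    rw [← L.le_iff_le]
    simpa [h3] using h2
  · apply le_of_forall_lt
    intro c hc
    obtain ⟨w, h1, h2, h3⟩ := hL c hc
    refine lt_of_lt_of_le h1 ?_
    rw [← h3]
    exact L.monotone h2

omit hs ho in
theorem fix_of_approx_right (L : X ≃o X) {p : X} (hL : ∀ c, p < c → ∃ w, w < c ∧ p ≤ w ∧ L w = w) :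
    L p = p := by
  apply le_antisymm
  · apply le_of_forall_gt
    intro c hc
    obtain ⟨w, h1, h2, h3⟩ := hL c hc
    refine lt_of_le_of_lt ?_ h1
    rw [← h3]
    exact L.monotone h2
  · rw [← L.symm.le_iff_le]
    simp only [OrderIso.symm_apply_apply]
    apply le_of_forall_gt
    intro c hc
    obtain ⟨w, h1, h2, h3⟩ := hL c hc
    refine lt_of_le_of_lt ?_ h1
    rw [← L.le_iff_le]
    simpa [h3] using h2

theorem u_step_iff (i j : ℤ) : u h p q i < u h p q j ↔ u h p q (i + 1) < u h p q (j + 1) := by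
  rw [← u_S0 hs ho i, ← u_S0 hs ho j, S0.lt_iff_lt]

theorem uv_step_iff (i j : ℤ) : v h p q i < u h p q j ↔ v h p q (i + 1) < u h p q (j + 1) := by
  rw [← v_S0 hs ho i, ← u_S0 hs ho j, S0.lt_iff_lt]

omit [CompleteLinearOrder X] hs ho in
theorem u_lt_all (P : ℤ → Prop) (hstep : ∀ i, P i ↔ P (i + 1)) (h0 : P 0) : ∀ i, P i := by
  intro i
  induction i using Int.induction_on with
  | zero => exact h0
  | succ i ih => exact (hstep _).1 ih
  | pred i ih =>
    rw [hstep, sub_add_cancel]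
    exact ih

/-- Case B1: the hulls of the moved sets of `h 0` and `h 1` are ordered, and `T` preserves the
interval. -/
theorem caseB1 (hfin : ∀ i, (ER (h i)).Finite) (hne : (Mv h p q 0).Nonempty)
    (hu : p < u h p q 0) (hv : v h p q 0 < q) :
    (v h p q 0 < u h p q 1 ∨ v h p q 1 < u h p q 0) ∧ T p = p ∧ T q = q := by
  have hne' := Mv_nonempty_all hs ho hne
  have hvall : ∀ i, v h p q i < q := by
    refine u_lt_all (fun i => v h p q i < q) ?_ hv
    intro i
    rw [← v_S0 hs ho i]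
    have h1 : v h p q i < q ↔ S0 (v h p q i) < S0 q := (S0.lt_iff_lt).symm
    rwa [ho.q0] at h1
  have huv := u_lt_v hs ho hne'
  have huq : ∀ i, u h p q i < q := fun i => (huv i).trans (hvall i)
  have key : ∀ (hmono : (∀ i, u h p q i ≤ u h p q (i + 1)) ∨
      (∀ i, u h p q (i + 1) ≤ u h p q i)), (∀ c, c < q → ∃ i, c < u h p q i) ∧
      (∀ c, p < c → ∃ i, u h p q i < c) := by
    intro hmono
    obtain ⟨a1, a2, a3⟩ := sup_fixed hs ho hmono
    obtain ⟨b1, b2, b3⟩ := inf_fixed hs ho hmono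
    have hq : q ≤ sSup (range (u h p q)) :=
      ge_q ho (lt_of_lt_of_le hu (le_sSup ⟨0, rfl⟩)) a1 a2 a3
    have hp : sInf (range (u h p q)) ≤ p :=
      le_p ho (lt_of_le_of_lt (sInf_le ⟨0, rfl⟩) (huq 0)) b1 b2 b3
    refine ⟨fun c hc => ?_, fun c hc => ?_⟩
    · obtain ⟨_, ⟨i, rfl⟩, hi⟩ := lt_sSup_iff.1 (lt_of_lt_of_le hc hq)
      exact ⟨i, hi⟩
    · obtain ⟨_, ⟨i, rfl⟩, hi⟩ := sInf_lt_iff.1 (lt_of_le_of_lt hp hc)
      exact ⟨i, hi⟩
  rcases lt_trichotomy (u h p q 0) (u h p q 1) with h01 | h01 | h01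
  · -- increasing case
    have hinc : ∀ i, u h p q i < u h p q (i + 1) := by
      refine u_lt_all (fun i => u h p q i < u h p q (i + 1)) ?_ (by simpa using h01)
      intro i
      exact u_step_iff hs ho i (i + 1)
    have hmono : StrictMono (u h p q) := strictMono_int_of_lt_succ hinc
    obtain ⟨k1, k2⟩ := key (Or.inl fun i => (hinc i).le)
    refine ⟨Or.inl ?_, ?_, ?_⟩
    · obtain ⟨i, hi⟩ := k1 _ (hvall 0)
      have hi1 : 1 ≤ i := by
        by_contra hlt
        have : u h p q i ≤ u h p q 0 := hmono.monotone (by omega)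
        exact absurd (hi.trans_le this) (not_lt.2 (huv 0).le)
      obtain ⟨k, hk⟩ := Int.le.dest hi1
      subst hk
      clear hi1
      induction k with
      | zero => simpa using hi
      | succ k ih =>
        apply ih
        have h1 : u h p q (1 + ((k + 1 : ℕ) : ℤ)) = S1 (u h p q (1 + (k : ℤ))) := by
          rw [u_S1b hs ho _ (by omega)]
          congr 1
        rw [h1, ← v_S1a hs ho 0 le_rfl, S1.lt_iff_lt] at hi
        exact hi
    · apply fix_of_approx_right T
      intro c hc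
      obtain ⟨i, hi⟩ := k2 c hc
      refine ⟨u h p q (min i (-1)), lt_of_le_of_lt (hmono.monotone (min_le_left _ _)) hi,
        p_le_u _, T_u hs ho hfin _ (Or.inl (min_le_right _ _))⟩
    · apply fix_of_approx_left T
      intro c hc
      obtain ⟨i, hi⟩ := k1 c hc
      refine ⟨u h p q (max i 2), lt_of_lt_of_le hi (hmono.monotone (le_max_left _ _)),
        (huq _).le, T_u hs ho hfin _ (Or.inr (le_max_right _ _))⟩
  · -- equal case
    exfalso
    have e0 : S0 (u h p q 0) = u h p q 0 := by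
      rw [u_S0 hs ho, zero_add, ← h01]
    exact ho.no _ hu (huq 0) e0 (u_S1a hs ho 0 le_rfl) (u_h0 hs ho 0)
  · -- decreasing case
    have hdec : ∀ i, u h p q (i + 1) < u h p q i := by
      refine u_lt_all (fun i => u h p q (i + 1) < u h p q i) ?_ (by simpa using h01)
      intro i
      exact u_step_iff hs ho (i + 1) i
    have hanti : StrictAnti (u h p q) := strictAnti_int_of_succ_lt hdec
    obtain ⟨k1, k2⟩ := key (Or.inr fun i => (hdec i).le)
    refine ⟨Or.inr ?_, ?_, ?_⟩
    · obtain ⟨i, hi⟩ := k1 _ (hvall 1)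
      have hi1 : i ≤ 0 := by
        by_contra hlt
        have : u h p q i ≤ u h p q 1 := hanti.antitone (by omega)
        exact absurd (hi.trans_le this) (not_lt.2 (huv 1).le)
      -- shift by S0
      have shift : ∀ (k : ℕ) (a b : ℤ), v h p q a < u h p q b →
          v h p q (a + k) < u h p q (b + k) := by
        intro k
        induction k with
        | zero => intro a b hab; simpa using hab
        | succ k ih =>
          intro a b hab
          have h1 := ih a b hab
          rw [uv_step_iff hs ho] at h1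
          push_cast
          rw [← add_assoc, ← add_assoc]
          exact h1
      obtain ⟨k, hk⟩ : ∃ k : ℕ, i = -(k : ℤ) := ⟨i.natAbs, by omega⟩
      have h2 := shift k 1 i hi
      have h3 : i + (k : ℤ) = 0 := by omega
      rw [h3] at h2
      clear h3 hk hi hi1
      induction k with
      | zero => simpa using h2
      | succ k ih =>
        apply ih
        have h1 : v h p q (1 + ((k + 1 : ℕ) : ℤ)) = S1 (v h p q (1 + (k : ℤ))) := by
          rw [v_S1b hs ho _ (by omega)]
          congr 1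
        rw [h1, ← u_S1a hs ho 0 le_rfl, S1.lt_iff_lt] at h2
        exact h2
    · apply fix_of_approx_right T
      intro c hc
      obtain ⟨i, hi⟩ := k2 c hc
      refine ⟨u h p q (max i 2), lt_of_le_of_lt (hanti.antitone (le_max_left _ _)) hi,
        p_le_u _, T_u hs ho hfin _ (Or.inr (le_max_right _ _))⟩
    · apply fix_of_approx_left T
      intro c hc
      obtain ⟨i, hi⟩ := k1 c hc
      refine ⟨u h p q (min i (-1)), lt_of_lt_of_le hi (hanti.antitone (min_le_left _ _)),
        (huq _).le, T_u hs ho hfin _ (Or.inl (min_le_right _ _))⟩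

end case1

end system

end Pool.Agent.LibDiag
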