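import Pool.Agent.LibDiag.Dyn

namespace Pool.Agent.LibDiag

open Set

theorem zpow_comm_apply {X : Type*} [CompleteLinearOrder X] (f g : X ≃o X)
    (hc : ∀ z, f (g z) = g (f z)) (n : ℤ) (z : X) : g ((f ^ n) z) = (f ^ n) (g z) := by
  have h1 : Commute f g := by
    ext z; exact hc z
  have h2 : Commute (f ^ n) g := h1.zpow_left n
  have h3 := congrArg (fun e : X ≃o X => e z) h2.eq
  exact h3.symm

/-- Case B2: if `h 0` moves points arbitrarily close to `p` (from the right), then `h 0` has no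
fixed point between `p` and `q`, and `h 0 = h 1` there. -/
theorem caseB2 {X : Type*} [CompleteLinearOrder X] (S0 S1 : X ≃o X) (h : ℤ → (X ≃o X)) (p q : X)
    (s : ∀ i z, S0 (h i z) = h (i + 1) (S0 z))
    (r1 : ∀ z, S1 (h 0 z) = h 0 (S1 z))
    (r2 : ∀ z, S1 (h 1 z) = h 2 (S1 z))
    (r3 : ∀ z, h 0 (h 1 z) = h 1 (h 0 z))
    (hpq : p < q) (p0 : S0 p = p) (p1 : S1 p = p) (ph : h 0 p = p)
    (q0 : S0 q = q) (qh : h 0 q = q)
    (no : ∀ z, p < z → z < q → S0 z = z → S1 z = z → h 0 z = z → False)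
    (iso : ∃ c, p < c ∧ ∀ z, p < z → z < c → h 0 z ≠ z)
    (germ : ∃ c, p < c ∧ ∀ z, p ≤ z → z ≤ c → S1 (h 1 z) = h 1 (S1 z)) :
    (∀ z, p < z → z < q → h 0 z ≠ z) ∧ (∀ z, p ≤ z → z ≤ q → h 0 z = h 1 z) := by
  have p1' : h 1 p = p := by
    have := s 0 p
    rw [ph, p0, zero_add] at this
    exact this.symm
  have q1' : h 1 q = q := by
    have := s 0 q
    rw [qh, q0, zero_add] at this
    exact this.symm
  set F0 : Set X := {z | p < z ∧ h 0 z = z} with hF0
  set F1 : Set X := {z | p < z ∧ h 1 z = z} with hF1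
  have lt_iff : ∀ (L : X ≃o X), L p = p → ∀ z, p < z ↔ p < L z := by
    intro L hL z
    have := (L.lt_iff_lt (x := p) (y := z)).symm
    rwa [hL] at this
  have fix_iff : ∀ (L : X ≃o X) (a b : X ≃o X), (∀ z, L (a z) = b (L z)) → ∀ z,
      a z = z ↔ b (L z) = L z := by
    intro L a b hL z
    rw [← hL]
    exact L.injective.eq_iff.symm
  have S0_01 : S0 (sInf F0) = sInf F1 :=
    map_inf_of_iff S0 fun z => and_congr (lt_iff S0 p0 z) (fix_iff S0 (h 0) (h 1) (s 0) z)
  have S1_00 : S1 (sInf F0) = sInf F0 :=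
    map_inf_of_iff S1 fun z => and_congr (lt_iff S1 p1 z) (fix_iff S1 (h 0) (h 0) r1 z)
  have h0_00 : h 0 (sInf F0) = sInf F0 :=
    map_inf_of_iff (h 0) fun z => and_congr (lt_iff (h 0) ph z)
      (fix_iff (h 0) (h 0) (h 0) (fun _ => rfl) z)
  have h0_11 : h 0 (sInf F1) = sInf F1 :=
    map_inf_of_iff (h 0) fun z => and_congr (lt_iff (h 0) ph z)
      (fix_iff (h 0) (h 1) (h 1) r3 z)
  have h1_00 : h 1 (sInf F0) = sInf F0 :=
    map_inf_of_iff (h 1) fun z => and_congr (lt_iff (h 1) p1' z)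
      (fix_iff (h 1) (h 0) (h 0) (fun w => (r3 w).symm) z)
  have c0pos : p < sInf F0 := by
    obtain ⟨c, hc, hc2⟩ := iso
    refine lt_of_lt_of_le hc (le_sInf ?_)
    rintro z ⟨hz1, hz2⟩
    by_contra hlt
    exact hc2 z hz1 (not_le.1 hlt) hz2
  have c1pos : p < sInf F1 := by
    rw [← S0_01]
    exact (lt_iff S0 p0 _).1 c0pos
  have le1 : sInf F1 ≤ sInf F0 := sInf_le ⟨c0pos, h1_00⟩
  have le2 : sInf F0 ≤ sInf F1 := sInf_le ⟨c1pos, h0_11⟩
  have heq : sInf F0 = sInf F1 := le_antisymm le2 le1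
  have hqle : q ≤ sInf F0 := by
    by_contra hlt
    exact no _ c0pos (not_le.1 hlt) (by rw [S0_01, ← heq]) S1_00 h0_00
  have nofix : ∀ z, p < z → z < q → h 0 z ≠ z := by
    intro z hz1 hz2 hz3
    have : sInf F0 ≤ z := sInf_le ⟨hz1, hz3⟩
    exact absurd (hz2.trans_le (hqle.trans this)) (lt_irrefl _)
  refine ⟨nofix, ?_⟩
  obtain ⟨c, hc, hcomm⟩ := germ
  have h21 : ∀ w, p ≤ w → w ≤ S1 c → h 2 w = h 1 w := by
    intro w hw1 hw2
    have hz1 : p ≤ S1.symm w := by
      rw [← S1.le_iff_le, p1]; simpa using hw1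
    have hz2 : S1.symm w ≤ c := by
      rw [← S1.le_iff_le]; simpa using hw2
    have := hcomm _ hz1 hz2
    rw [r2] at this
    simpa using this
  have hc' : p < S0.symm (S1 c) := by
    rw [← S0.lt_iff_lt, p0]
    simpa using (lt_iff S1 p1 c).1 hc
  have h10 : ∀ z, p ≤ z → z ≤ S0.symm (S1 c) → h 0 z = h 1 z := by
    intro z hz1 hz2
    have a1 : p ≤ S0 z := by
      rw [← p0]; exact S0.monotone hz1
    have a2 : S0 z ≤ S1 c := by
      have := S0.monotone hz2
      simpa using this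
    have := h21 _ a1 a2
    have b1 := s 0 z
    have b2 := s 1 z
    rw [zero_add] at b1
    rw [show (1 : ℤ) + 1 = 2 by norm_num] at b2
    rw [← b1, ← b2] at this
    exact (S0.injective this).symm
  intro z hz1 hz2
  rcases eq_or_lt_of_le hz1 with rfl | hz1
  · rw [ph, p1']
  rcases eq_or_lt_of_le hz2 with rfl | hz2
  · rw [qh, q1']
  set m := sInf (range fun n : ℤ => (h 0 ^ n) z) with hm
  have hm0 : h 0 m = m := by
    apply map_inf_of_iff
    intro w
    constructor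
    · rintro ⟨n, rfl⟩
      refine ⟨n + 1, ?_⟩
      change (h 0 ^ (n + 1)) z = h 0 ((h 0 ^ n) z)
      rw [zpow_add_one, ← RelIso.mul_apply, (Commute.zpow_self (h 0) n).eq]
    · rintro ⟨n, hn⟩
      refine ⟨n - 1, ?_⟩
      apply (h 0).injective
      rw [← hn]
      change h 0 ((h 0 ^ (n - 1)) z) = (h 0 ^ n) z
      rw [← RelIso.mul_apply, ← zpow_one_add, add_sub_cancel]
  have hpn : ∀ n : ℤ, (h 0 ^ n) p = p := by
    intro n
    have := zpow_comm_apply (h 0) (h 0) (fun _ => rfl) n p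
    induction n using Int.induction_on with
    | zero => rfl
    | succ i ih =>
      rw [zpow_add_one, RelIso.mul_apply, ph]
      exact ih (zpow_comm_apply (h 0) (h 0) (fun _ => rfl) _ p)
    | pred i ih =>
      rw [zpow_sub_one, RelIso.mul_apply]
      have : (h 0)⁻¹ p = p := by
        conv_lhs => rw [← ph]
        exact RelIso.inv_apply_self _ _
      rw [this]
      exact ih (zpow_comm_apply (h 0) (h 0) (fun _ => rfl) _ p)
  have hmp : p ≤ m := by
    apply le_sInf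
    rintro _ ⟨n, rfl⟩
    have := ((h 0 ^ n).monotone hz1.le)
    rw [hpn n] at this
    exact this
  have hmz : m ≤ z := sInf_le ⟨0, rfl⟩
  have hmeq : m = p := by
    by_contra hne
    exact nofix m (lt_of_le_of_ne hmp (Ne.symm hne)) (lt_of_le_of_lt hmz hz2) hm0
  have : m < S0.symm (S1 c) := by rw [hmeq]; exact hc'
  obtain ⟨_, ⟨n, rfl⟩, hn⟩ := sInf_lt_iff.1 this
  have hw1 : p ≤ (h 0 ^ n) z := by
    have := ((h 0 ^ n).monotone hz1.le)
    rw [hpn n] at this
    exact this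
  have e1 := h10 _ hw1 hn.le
  rw [zpow_comm_apply (h 0) (h 0) (fun _ => rfl) n z,
    zpow_comm_apply (h 0) (h 1) r3 n z] at e1
  exact (h 0 ^ n).injective e1

end Pool.Agent.LibDiag
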