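import Pool.Agent.LibDiag.Dyn2

namespace Pool.Agent.LibDiag

open Set
open scoped commutatorElement

section local_

variable {X : Type*} [CompleteLinearOrder X] {p q : X}

/-- `f` fixes `p` and `q` -/
def Pres (p q : X) (f : X ≃o X) : Prop := f p = p ∧ f q = q

theorem Pres.mul {f g : X ≃o X} (hf : Pres p q f) (hg : Pres p q g) : Pres p q (f * g) :=
  ⟨by rw [RelIso.mul_apply, hg.1, hf.1], by rw [RelIso.mul_apply, hg.2, hf.2]⟩

theorem inv_fix {f : X ≃o X} {p : X} (hf : f p = p) : f⁻¹ p = p := by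
  conv_lhs => rw [← hf]
  exact RelIso.inv_apply_self _ _

theorem Pres.inv {f : X ≃o X} (hf : Pres p q f) : Pres p q f⁻¹ :=
  ⟨inv_fix hf.1, inv_fix hf.2⟩

theorem Pres.mem {f : X ≃o X} (hf : Pres p q f) {z : X} (hz : z ∈ Icc p q) : f z ∈ Icc p q := by
  constructor
  · have := f.monotone hz.1
    rwa [hf.1] at this
  · have := f.monotone hz.2
    rwa [hf.2] at this

/-- agreement on `[p,q]` -/
def Agr (p q : X) (f g : X ≃o X) : Prop := ∀ z ∈ Icc p q, f z = g z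

theorem Agr.symm {f g : X ≃o X} (h : Agr p q f g) : Agr p q g f := fun z hz => (h z hz).symm

theorem Agr.mul {f f' g g' : X ≃o X} (h1 : Agr p q f f') (h2 : Agr p q g g')
    (hg : Pres p q g) : Agr p q (f * g) (f' * g') := by
  intro z hz
  rw [RelIso.mul_apply, RelIso.mul_apply, ← h2 z hz]
  exact h1 _ (hg.mem hz)

theorem Agr.inv {f g : X ≃o X} (h : Agr p q f g) (hf : Pres p q f) : Agr p q f⁻¹ g⁻¹ := by
  intro z hz
  have h1 := h _ (hf.inv.mem hz)
  rw [RelIso.apply_inv_self] at h1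
  apply g.injective
  rw [← h1, RelIso.apply_inv_self]

theorem Agr.one_of_commute {f g : X ≃o X} (hf : Pres p q f) (hg : Pres p q g)
    (h : ∀ z ∈ Icc p q, f (g z) = g (f z)) : Agr p q ⁅f, g⁆ 1 := by
  intro z hz
  rw [commutatorElement_def]
  have hw : f⁻¹ (g⁻¹ z) ∈ Icc p q := hf.inv.mem (hg.inv.mem hz)
  have h1 := h _ hw
  rw [RelIso.mul_apply, RelIso.mul_apply, RelIso.mul_apply, h1, RelIso.apply_inv_self,
    RelIso.apply_inv_self]
  rfl

theorem commute_of_disjoint {f g : X ≃o X} (hf : Pres p q f) (hg : Pres p q g)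
    (h : ∀ z, p < z → z < q → f z = z ∨ g z = z) : ∀ z ∈ Icc p q, f (g z) = g (f z) := by
  intro z hz
  rcases eq_or_lt_of_le hz.1 with rfl | hz1
  · rw [hg.1, hf.1, hg.1]
  rcases eq_or_lt_of_le hz.2 with rfl | hz2
  · rw [hg.2, hf.2, hg.2]
  by_cases h1 : f z = z
  · by_cases h2 : g z = z
    · rw [h1, h2, h1]
    · have hgz1 : p < g z := by
        have := g.lt_iff_lt.2 hz1; rwa [hg.1] at this
      have hgz2 : g z < q := by
        have := g.lt_iff_lt.2 hz2; rwa [hg.2] at this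
      rcases h _ hgz1 hgz2 with h3 | h3
      · rw [h1, h3]
      · exact absurd (g.injective h3) h2
  · have h2 : g z = z := (h z hz1 hz2).resolve_left h1
    have hfz1 : p < f z := by
      have := f.lt_iff_lt.2 hz1; rwa [hf.1] at this
    have hfz2 : f z < q := by
      have := f.lt_iff_lt.2 hz2; rwa [hf.2] at this
    rcases h _ hfz1 hfz2 with h3 | h3
    · exact absurd (f.injective h3) h1
    · rw [h2, h3]

theorem Pres.comm {f g : X ≃o X} (hf : Pres p q f) (hg : Pres p q g) : Pres p q ⁅f, g⁆ := by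
  rw [commutatorElement_def]
  exact ((hf.mul hg).mul hf.inv).mul hg.inv

theorem agr_comm_left {c d : X ≃o X} (hc : Agr p q c 1) (hcp : Pres p q c) (hd : Pres p q d) :
    Agr p q ⁅c, d⁆ 1 := by
  apply Agr.one_of_commute hcp hd
  intro z hz
  rw [hc _ (hd.mem hz), hc _ hz]
  rfl

theorem agr_comm_right {c d : X ≃o X} (hd : Agr p q d 1) (hcp : Pres p q c) (hdp : Pres p q d) :
    Agr p q ⁅c, d⁆ 1 := by
  apply Agr.one_of_commute hcp hdp
  intro z hz
  rw [hd _ (hcp.mem hz), hd _ hz]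
  rfl

/-- The final computation on one interval when `a = b` there. -/
theorem agr_equal {a b T : X ≃o X} (ha : Pres p q a) (hb : Pres p q b) (hT : Pres p q T)
    (hab : Agr p q a b) : Agr p q ⁅⁅a, T * b * T⁻¹⁆, ⁅T * a * T⁻¹, b⁆⁆ 1 := by
  have ha' : Pres p q (T * a * T⁻¹) := (hT.mul ha).mul hT.inv
  have hb' : Pres p q (T * b * T⁻¹) := (hT.mul hb).mul hT.inv
  have hab' : Agr p q (T * a * T⁻¹) (T * b * T⁻¹) := by
    apply Agr.mul _ (fun _ _ => rfl) hT.inv
    exact Agr.mul (fun _ _ => rfl) hab ha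
  set a' := T * a * T⁻¹
  set b' := T * b * T⁻¹
  have hc : Pres p q ⁅a, b'⁆ := ha.comm hb'
  have hd : Pres p q ⁅a', b⁆ := ha'.comm hb
  have hdc : Agr p q ⁅a', b⁆ (⁅a, b'⁆)⁻¹ := by
    rw [commutatorElement_inv, commutatorElement_def, commutatorElement_def]
    apply Agr.mul _ (hab.inv ha).symm hb.inv
    apply Agr.mul _ (hab'.inv ha') ha'.inv
    exact Agr.mul hab' hab.symm hb
  apply Agr.one_of_commute hc hd
  intro z hz
  rw [hdc _ (hc.mem hz), hdc _ hz, RelIso.inv_apply_self, RelIso.apply_inv_self]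

/-- The final computation on one interval when the moved sets are ordered. -/
theorem agr_ordered {a b T : X ≃o X} (ha : Pres p q a) (hb : Pres p q b) (hT : Pres p q T)
    (hord : (∀ x y, p < x → x < q → p < y → y < q → a x ≠ x → b y ≠ y → x < y) ∨
      (∀ x y, p < x → x < q → p < y → y < q → a x ≠ x → b y ≠ y → y < x)) :
    Agr p q ⁅⁅a, T * b * T⁻¹⁆, ⁅T * a * T⁻¹, b⁆⁆ 1 := by
  have ha' : Pres p q (T * a * T⁻¹) := (hT.mul ha).mul hT.inv
  have hb' : Pres p q (T * b * T⁻¹) := (hT.mul hb).mul hT.inv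
  have mvT : ∀ (c : X ≃o X) z, (T * c * T⁻¹) z ≠ z → c (T⁻¹ z) ≠ T⁻¹ z := by
    intro c z hz h1
    apply hz
    rw [RelIso.mul_apply, RelIso.mul_apply, h1, RelIso.apply_inv_self]
  have inT : ∀ z, p < z → z < q → p < T⁻¹ z ∧ T⁻¹ z < q := by
    intro z h1 h2
    constructor
    · have := (T⁻¹ : X ≃o X).lt_iff_lt.2 h1
      rwa [hT.inv.1] at this
    · have := (T⁻¹ : X ≃o X).lt_iff_lt.2 h2
      rwa [hT.inv.2] at this
  by_cases hdis : ∀ z, p < z → z < q → a z = z ∨ (T * b * T⁻¹) z = z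
  · exact agr_comm_left (Agr.one_of_commute ha hb' (commute_of_disjoint ha hb' hdis))
      (ha.comm hb') (ha'.comm hb)
  · push Not at hdis
    obtain ⟨y, hy1, hy2, hy3, hy4⟩ := hdis
    have hyT := mvT b y hy4
    obtain ⟨i1, i2⟩ := inT y hy1 hy2
    have hdis2 : ∀ z, p < z → z < q → (T * a * T⁻¹) z = z ∨ b z = z := by
      intro z hz1 hz2
      by_contra hcon
      push Not at hcon
      obtain ⟨hz3, hz4⟩ := hcon
      have hzT := mvT a z hz3
      obtain ⟨j1, j2⟩ := inT z hz1 hz2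
      rcases hord with ho | ho
      · have k1 := ho _ _ j1 j2 i1 i2 hzT hyT
        have k2 := ho _ _ hy1 hy2 hz1 hz2 hy3 hz4
        rw [OrderIso.lt_iff_lt] at k1
        exact absurd (k1.trans k2) (lt_irrefl _)
      · have k1 := ho _ _ j1 j2 i1 i2 hzT hyT
        have k2 := ho _ _ hy1 hy2 hz1 hz2 hy3 hz4
        rw [OrderIso.lt_iff_lt] at k1
        exact absurd (k1.trans k2) (lt_irrefl _)
    exact agr_comm_right (Agr.one_of_commute ha' hb (commute_of_disjoint ha' hb hdis2))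
      (ha.comm hb') (ha'.comm hb)

theorem comm_fix {f g : X ≃o X} {y : X} (hf : f y = y) (hg : g y = y) : ⁅f, g⁆ y = y := by
  rw [commutatorElement_def, RelIso.mul_apply, RelIso.mul_apply, RelIso.mul_apply, inv_fix hg,
    inv_fix hf, hg, hf]

end local_

section main

variable {X : Type*} [CompleteLinearOrder X] {S0 S1 T : X ≃o X} {h : ℤ → (X ≃o X)}

/-- The regularity properties of piecewise linear maps used in the argument. -/
structure Reg (S1 : X ≃o X) (h : ℤ → (X ≃o X)) : Prop where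
  finR : ∀ i, (ER (h i)).Finite
  finL : ∀ i, (EL (h i)).Finite
  isoR : ∀ p, h 0 p = p → p < ⊤ → (∃ c, p < c ∧ ∀ z, p < z → z < c → h 0 z = z) ∨
    (∃ c, p < c ∧ ∀ z, p < z → z < c → h 0 z ≠ z)
  isoL : ∀ p, h 0 p = p → ⊥ < p → (∃ c, c < p ∧ ∀ z, c < z → z < p → h 0 z = z) ∨
    (∃ c, c < p ∧ ∀ z, c < z → z < p → h 0 z ≠ z)
  germR : ∀ p, S1 p = p → h 1 p = p → p < ⊤ →
    ∃ c, p < c ∧ ∀ z, p ≤ z → z ≤ c → S1 (h 1 z) = h 1 (S1 z)
  germL : ∀ p, S1 p = p → h 1 p = p → ⊥ < p →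
    ∃ c, c < p ∧ ∀ z, c ≤ z → z ≤ p → S1 (h 1 z) = h 1 (S1 z)

theorem v_mem_EL (hs : Sys S0 S1 T h) {p q : X} (ho : Orb S0 S1 h p q) (i : ℤ) :
    v h p q i ∈ EL (h i) := by
  refine ⟨v_fix hs ho i, fun c hc => ?_⟩
  obtain ⟨y, hy, hyc⟩ := lt_sSup_iff.1 hc
  exact ⟨y, hyc, gt_of_mem hs ho hy, hy.2.2⟩

/-- On an interval where `h 0` is not trivial, `T` preserves the interval, and the moved sets of
`h 0`, `h 1` are ordered or `h 0 = h 1`. -/
theorem caseB (hs : Sys S0 S1 T h) (hr : Reg S1 h) {p q : X} (ho : Orb S0 S1 h p q)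
    (hne : (Mv h p q 0).Nonempty) :
    Pres p q T ∧ ((v h p q 0 < u h p q 1 ∨ v h p q 1 < u h p q 0) ∨ Agr p q (h 0) (h 1)) := by
  have key : ∀ (_ : ∀ z, p < z → z < q → h 0 z ≠ z), Pres p q T := by
    intro hno
    have hu : u h p q 0 = p := by
      by_contra hne'
      have h1 : p < u h p q 0 := lt_of_le_of_ne (p_le_u 0) (Ne.symm hne')
      have h2 : u h p q 0 < q :=
        (u_lt_v hs ho (Mv_nonempty_all hs ho hne) 0).trans_le (v_le_q 0)
      exact hno _ h1 h2 (u_fix hs ho 0)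
    have hv : v h p q 0 = q := by
      by_contra hne'
      have h1 : v h p q 0 < q := lt_of_le_of_ne (v_le_q 0) hne'
      have h2 : p < v h p q 0 :=
        (p_le_u 0).trans_lt (u_lt_v hs ho (Mv_nonempty_all hs ho hne) 0)
      exact hno _ h2 h1 (v_fix hs ho 0)
    have hu2 : u h p q 2 = p := by
      have h1 := u_S0 hs ho 0
      have h2 := u_S0 hs ho 1
      rw [hu, ho.p0, zero_add] at h1
      rw [← h1, ho.p0] at h2
      exact h2.symm
    have hv2 : v h p q 2 = q := by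
      have h1 := v_S0 hs ho 0
      have h2 := v_S0 hs ho 1
      rw [hv, ho.q0, zero_add] at h1
      rw [← h1, ho.q0] at h2
      exact h2.symm
    constructor
    · have := T_u hs ho hr.finR 2 (Or.inr le_rfl)
      rwa [hu2] at this
    · have := fix_EL (hs.r4 2 (Or.inr le_rfl)) (hr.finL 2) (v_mem_EL hs ho 2)
      rwa [hv2] at this
  have p1 : h 1 p = p := hs.fix_all ho.p0 ho.ph 1
  have q1 : h 1 q = q := hs.fix_all ho.q0 ho.qh 1
  by_cases hu : u h p q 0 = p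
  · -- moved points accumulate at p
    have hacc : ∀ c, p < c → ∃ y, p < y ∧ y < c ∧ h 0 y ≠ y := by
      intro c hc
      have := u_mem_ER hs ho 0
      rw [hu] at this
      exact this.2 c hc
    have hiso : ∃ c, p < c ∧ ∀ z, p < z → z < c → h 0 z ≠ z := by
      rcases hr.isoR p ho.ph (lt_of_lt_of_le ho.lt le_top) with ⟨c, hc1, hc2⟩ | hh
      · obtain ⟨y, hy1, hy2, hy3⟩ := hacc c hc1
        exact absurd (hc2 y hy1 hy2) hy3
      · exact hh
    have hgerm := hr.germR p ho.p1 p1 (lt_of_lt_of_le ho.lt le_top)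
    obtain ⟨k1, k2⟩ := caseB2 S0 S1 h p q hs.s (hs.r1 0 le_rfl) (hs.r2 1 le_rfl) (hs.r3 1) ho.lt
      ho.p0 ho.p1 ho.ph ho.q0 ho.qh ho.no hiso hgerm
    exact ⟨key k1, Or.inr fun z hz => k2 z hz.1 hz.2⟩
  by_cases hv : v h p q 0 = q
  · have hacc : ∀ c, c < q → ∃ y, c < y ∧ y < q ∧ h 0 y ≠ y := by
      intro c hc
      have := v_mem_EL hs ho 0
      rw [hv] at this
      exact this.2 c hc
    have hiso : ∃ c, c < q ∧ ∀ z, c < z → z < q → h 0 z ≠ z := by
      rcases hr.isoL q ho.qh (lt_of_le_of_lt bot_le ho.lt) with ⟨c, hc1, hc2⟩ | hh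
      · obtain ⟨y, hy1, hy2, hy3⟩ := hacc c hc1
        exact absurd (hc2 y hy1 hy2) hy3
      · exact hh
    have hgerm := hr.germL q ho.q1 q1 (lt_of_le_of_lt bot_le ho.lt)
    obtain ⟨k1, k2⟩ := caseB2 (X := Xᵒᵈ) S0.dual S1.dual (fun i => (h i).dual)
      (OrderDual.toDual q) (OrderDual.toDual p)
      (fun i z => hs.s i (OrderDual.ofDual z)) (fun z => hs.r1 0 le_rfl (OrderDual.ofDual z))
      (fun z => hs.r2 1 le_rfl (OrderDual.ofDual z)) (fun z => hs.r3 1 (OrderDual.ofDual z))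
      ho.lt ho.q0 ho.q1 ho.qh ho.p0 ho.ph
      (fun z h1 h2 h3 h4 h5 => ho.no (OrderDual.ofDual z) h2 h1 h3 h4 h5)
      (by
        obtain ⟨c, hc1, hc2⟩ := hiso
        exact ⟨OrderDual.toDual c, hc1, fun z h1 h2 => hc2 (OrderDual.ofDual z) h2 h1⟩)
      (by
        obtain ⟨c, hc1, hc2⟩ := hgerm
        exact ⟨OrderDual.toDual c, hc1, fun z h1 h2 => hc2 (OrderDual.ofDual z) h2 h1⟩)
    refine ⟨key fun z h1 h2 => k1 (OrderDual.toDual z) h2 h1, Or.inr fun z hz => ?_⟩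
    exact k2 (OrderDual.toDual z) hz.2 hz.1
  · obtain ⟨k1, k2, k3⟩ := caseB1 hs ho hr.finR hne (lt_of_le_of_ne (p_le_u 0) (Ne.symm hu))
      (lt_of_le_of_ne (v_le_q 0) hv)
    exact ⟨⟨k2, k3⟩, Or.inl k1⟩

/-- common fixed points -/
def Fx (S0 S1 : X ≃o X) (h : ℤ → (X ≃o X)) : Set X := {z | S0 z = z ∧ S1 z = z ∧ h 0 z = z}

theorem fixed_set_sup (L : X ≃o X) (A : Set X) (hA : ∀ z ∈ A, L z = z) (hA2 : ∀ z, L z ∈ A → L z = z) :
    L (sSup A) = sSup A := by
  apply map_sup_of_iff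
  intro z
  constructor
  · intro hz; rw [hA z hz]; exact hz
  · intro hz
    have := hA2 z hz
    rwa [this] at hz

theorem fixed_set_inf (L : X ≃o X) (A : Set X) (hA : ∀ z ∈ A, L z = z) (hA2 : ∀ z, L z ∈ A → L z = z) :
    L (sInf A) = sInf A := by
  apply map_inf_of_iff
  intro z
  constructor
  · intro hz; rw [hA z hz]; exact hz
  · intro hz
    have := hA2 z hz
    rwa [this] at hz

theorem exists_orb (y : X) (hy : y ∉ Fx S0 S1 h) : ∃ p q, Orb S0 S1 h p q ∧ p < y ∧ y < q := by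
  have inj : ∀ (L : X ≃o X) (z : X), L (L z) = L z → L z = z := fun L z hz => L.injective hz
  set A : Set X := {z | z ∈ Fx S0 S1 h ∧ z ≤ y}
  set B : Set X := {z | z ∈ Fx S0 S1 h ∧ y ≤ z}
  have a0 : S0 (sSup A) = sSup A :=
    fixed_set_sup S0 A (fun z hz => hz.1.1) (fun z hz => inj _ _ hz.1.1)
  have a1 : S1 (sSup A) = sSup A :=
    fixed_set_sup S1 A (fun z hz => hz.1.2.1) (fun z hz => inj _ _ hz.1.2.1)
  have a2 : h 0 (sSup A) = sSup A :=
    fixed_set_sup (h 0) A (fun z hz => hz.1.2.2) (fun z hz => inj _ _ hz.1.2.2)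
  have b0 : S0 (sInf B) = sInf B :=
    fixed_set_inf S0 B (fun z hz => hz.1.1) (fun z hz => inj _ _ hz.1.1)
  have b1 : S1 (sInf B) = sInf B :=
    fixed_set_inf S1 B (fun z hz => hz.1.2.1) (fun z hz => inj _ _ hz.1.2.1)
  have b2 : h 0 (sInf B) = sInf B :=
    fixed_set_inf (h 0) B (fun z hz => hz.1.2.2) (fun z hz => inj _ _ hz.1.2.2)
  have hAy : sSup A ≤ y := sSup_le fun z hz => hz.2
  have hBy : y ≤ sInf B := le_sInf fun z hz => hz.2
  have hA' : sSup A < y := by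
    refine lt_of_le_of_ne hAy ?_
    intro heq
    apply hy
    rw [← heq]
    exact ⟨a0, a1, a2⟩
  have hB' : y < sInf B := by
    refine lt_of_le_of_ne hBy ?_
    intro heq
    apply hy
    rw [heq]
    exact ⟨b0, b1, b2⟩
  refine ⟨sSup A, sInf B, ⟨hA'.trans hB', a0, a1, a2, b0, b1, b2, ?_⟩, hA', hB'⟩
  intro z hz1 hz2 h1 h2 h3
  rcases le_total z y with hzy | hzy
  · exact absurd (le_sSup (show z ∈ A from ⟨⟨h1, h2, h3⟩, hzy⟩)) (not_le.2 hz1)
  · exact absurd (sInf_le (show z ∈ B from ⟨⟨h1, h2, h3⟩, hzy⟩)) (not_le.2 hz2)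

/-- The main dynamical statement. -/
theorem dyn_main (hs : Sys S0 S1 T h) (hr : Reg S1 h) :
    ⁅⁅h 0, T * h 1 * T⁻¹⁆, ⁅T * h 0 * T⁻¹, h 1⁆⁆ = 1 := by
  ext y
  change ⁅⁅h 0, T * h 1 * T⁻¹⁆, ⁅T * h 0 * T⁻¹, h 1⁆⁆ y = y
  -- points in intervals of type B
  by_cases hB : ∃ p q, Orb S0 S1 h p q ∧ (Mv h p q 0).Nonempty ∧ p < y ∧ y < q
  · obtain ⟨p, q, ho, hne, hy1, hy2⟩ := hB
    obtain ⟨hT, hcase⟩ := caseB hs hr ho hne
    have ha : Pres p q (h 0) := ⟨ho.ph, ho.qh⟩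
    have hb : Pres p q (h 1) := ⟨hs.fix_all ho.p0 ho.ph 1, hs.fix_all ho.q0 ho.qh 1⟩
    rcases hcase with hord | hagr
    · apply agr_ordered ha hb hT _ y ⟨hy1.le, hy2.le⟩
      rcases hord with hord | hord
      · left
        intro x z hx1 hx2 hz1 hz2 hx hz
        exact (gt_of_mem hs ho (show x ∈ Mv h p q 0 from ⟨hx1, hx2, hx⟩)).trans
          (hord.trans (lt_of_mem hs ho (show z ∈ Mv h p q 1 from ⟨hz1, hz2, hz⟩)))
      · right
        intro x z hx1 hx2 hz1 hz2 hx hz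
        exact (gt_of_mem hs ho (show z ∈ Mv h p q 1 from ⟨hz1, hz2, hz⟩)).trans
          (hord.trans (lt_of_mem hs ho (show x ∈ Mv h p q 0 from ⟨hx1, hx2, hx⟩)))
    · exact agr_equal ha hb hT hagr y ⟨hy1.le, hy2.le⟩
  · -- other points
    have hfix : ∀ w, (¬ ∃ p q, Orb S0 S1 h p q ∧ (Mv h p q 0).Nonempty ∧ p < w ∧ w < q) →
        h 0 w = w ∧ h 1 w = w := by
      intro w hw
      by_cases hwF : w ∈ Fx S0 S1 h
      · exact ⟨hwF.2.2, hs.fix_all hwF.1 hwF.2.2 1⟩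
      · obtain ⟨p, q, ho, hw1, hw2⟩ := exists_orb w hwF
        have hemp : ¬ (Mv h p q 0).Nonempty := fun hne => hw ⟨p, q, ho, hne, hw1, hw2⟩
        constructor
        · by_contra hcon
          exact hemp ⟨w, hw1, hw2, hcon⟩
        · by_contra hcon
          apply hemp
          refine ⟨S0.symm w, ?_⟩
          have h1 := Mv_iff (i := 0) ho.p0 ho.q0 (hs.s 0) (S0.symm w)
          rw [h1]
          simpa using (show w ∈ Mv h p q 1 from ⟨hw1, hw2, hcon⟩)
    have hTy : ¬ ∃ p q, Orb S0 S1 h p q ∧ (Mv h p q 0).Nonempty ∧ p < T⁻¹ y ∧ T⁻¹ y < q := by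
      rintro ⟨p, q, ho, hne, h1, h2⟩
      apply hB
      refine ⟨p, q, ho, hne, ?_⟩
      have hT := (caseB hs hr ho hne).1
      constructor
      · have := T.lt_iff_lt.2 h1
        rwa [hT.1, RelIso.apply_inv_self] at this
      · have := T.lt_iff_lt.2 h2
        rwa [hT.2, RelIso.apply_inv_self] at this
    obtain ⟨f0, f1⟩ := hfix y hB
    obtain ⟨g0, g1⟩ := hfix _ hTy
    have e0 : (T * h 0 * T⁻¹) y = y := by
      rw [RelIso.mul_apply, RelIso.mul_apply, g0, RelIso.apply_inv_self]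
    have e1 : (T * h 1 * T⁻¹) y = y := by
      rw [RelIso.mul_apply, RelIso.mul_apply, g1, RelIso.apply_inv_self]
    exact comm_fix (comm_fix f0 e1) (comm_fix e0 f1)

end main

end Pool.Agent.LibDiag
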