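import Pool.Agent.LibDiag.PLDefs
import Pool.Agent.LibDiag.Dyn3

namespace Pool.Agent.LibDiag

open Set

theorem affine_fix {f : unitInterval ≃o unitInterval} {c d : unitInterval} {a b : ℝ}
    (h : ∀ y : unitInterval, c ≤ y → y ≤ d → (f y : ℝ) = a * (y : ℝ) + b)
    {z w : unitInterval} (hz : c ≤ z ∧ z ≤ d) (hw : c ≤ w ∧ w ≤ d) (hzw : z < w)
    (fz : f z = z) (fw : f w = w) (y : unitInterval) (hy : c ≤ y ∧ y ≤ d) : f y = y := by
  have e1 := h z hz.1 hz.2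
  have e2 := h w hw.1 hw.2
  rw [fz] at e1
  rw [fw] at e2
  have hne : (w : ℝ) - z ≠ 0 := by
    have : (z : ℝ) < w := hzw
    linarith
  have ha : a = 1 := by
    have h3 : (a - 1) * ((w : ℝ) - z) = 0 := by linarith
    rcases mul_eq_zero.1 h3 with h4 | h4
    · linarith
    · exact absurd h4 hne
  have hb : b = 0 := by
    rw [ha] at e1; linarith
  apply Subtype.ext
  rw [h y hy.1 hy.2, ha, hb]
  ring

theorem finite_of_sep {B : Set unitInterval} (hB : B.Finite) {E : Set unitInterval}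
    (hE : ∀ z ∈ E, ∀ w ∈ E, z < w → ∃ b ∈ B, z < b ∧ b < w) : E.Finite := by
  have hfin : (𝒫 B).Finite := hB.finite_subsets
  refine Set.Finite.of_finite_image (f := fun z => B ∩ Iic z) (hfin.subset ?_) ?_
  · rintro _ ⟨z, _, rfl⟩
    exact inter_subset_left
  · intro z hz w hw hzw
    by_contra hne
    rcases lt_or_gt_of_ne hne with hlt | hlt
    · obtain ⟨b, hb, h1, h2⟩ := hE z hz w hw hlt
      have : b ∈ B ∩ Iic w := ⟨hb, h2.le⟩
      have h3 : b ∈ B ∩ Iic z := by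
        have h4 : B ∩ Iic z = B ∩ Iic w := hzw
        rw [h4]; exact this
      exact absurd h1 (not_lt.2 h3.2)
    · obtain ⟨b, hb, h1, h2⟩ := hE w hw z hz hlt
      have : b ∈ B ∩ Iic z := ⟨hb, h2.le⟩
      have h3 : b ∈ B ∩ Iic w := by
        have h4 : B ∩ Iic z = B ∩ Iic w := hzw
        rw [← h4]; exact this
      exact absurd h1 (not_lt.2 h3.2)

theorem ER_finite {f : unitInterval ≃o unitInterval} (hf : IsPL f) : (ER f).Finite := by
  obtain ⟨B, hB, hf⟩ := hf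
  apply finite_of_sep hB
  intro z hz w hw hzw
  by_contra hcon
  push Not at hcon
  obtain ⟨a, b, h⟩ := hf z w hzw fun b hb hbb => absurd hbb.2 (not_lt.2 (hcon b hb hbb.1))
  obtain ⟨y, hy1, hy2, hy3⟩ := hz.2 w hzw
  exact hy3 (affine_fix h ⟨le_rfl, hzw.le⟩ ⟨hzw.le, le_rfl⟩ hzw hz.1 hw.1 y ⟨hy1.le, hy2.le⟩)

theorem EL_finite {f : unitInterval ≃o unitInterval} (hf : IsPL f) : (EL f).Finite := by
  obtain ⟨B, hB, hf⟩ := hf
  apply finite_of_sep hB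
  intro z hz w hw hzw
  by_contra hcon
  push Not at hcon
  obtain ⟨a, b, h⟩ := hf z w hzw fun b hb hbb => absurd hbb.2 (not_lt.2 (hcon b hb hbb.1))
  obtain ⟨y, hy1, hy2, hy3⟩ := hw.2 z hzw
  exact hy3 (affine_fix h ⟨le_rfl, hzw.le⟩ ⟨hzw.le, le_rfl⟩ hzw hz.1 hw.1 y ⟨hy1.le, hy2.le⟩)

theorem exists_right {B : Set unitInterval} (hB : B.Finite) {p : unitInterval} (hp : p < ⊤) :
    ∃ c, p < c ∧ ∀ z ∈ B, ¬ (p < z ∧ z < c) := by
  obtain ⟨c, hc, hmin⟩ := Set.exists_min_image (({⊤} ∪ B) ∩ Ioi p) id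
    (((Set.finite_singleton _).union hB).inter_of_left _) ⟨⊤, Or.inl rfl, hp⟩
  refine ⟨c, hc.2, fun z hz hzz => ?_⟩
  exact absurd hzz.2 (not_lt.2 (hmin z ⟨Or.inr hz, hzz.1⟩))

theorem exists_left {B : Set unitInterval} (hB : B.Finite) {p : unitInterval} (hp : ⊥ < p) :
    ∃ c, c < p ∧ ∀ z ∈ B, ¬ (c < z ∧ z < p) := by
  obtain ⟨c, hc, hmax⟩ := Set.exists_max_image (({⊥} ∪ B) ∩ Iio p) id
    (((Set.finite_singleton _).union hB).inter_of_left _) ⟨⊥, Or.inl rfl, hp⟩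
  refine ⟨c, hc.2, fun z hz hzz => ?_⟩
  exact absurd hzz.1 (not_lt.2 (hmax z ⟨Or.inr hz, hzz.2⟩))

theorem pl_isoR {f : unitInterval ≃o unitInterval} (hf : IsPL f) (p : unitInterval) (hp : f p = p)
    (hpt : p < ⊤) : (∃ c, p < c ∧ ∀ z, p < z → z < c → f z = z) ∨
      (∃ c, p < c ∧ ∀ z, p < z → z < c → f z ≠ z) := by
  obtain ⟨B, hB, hf⟩ := hf
  obtain ⟨c, hc, hno⟩ := exists_right hB hpt
  obtain ⟨a, b, h⟩ := hf p c hc hno
  by_cases hex : ∃ z, p < z ∧ z < c ∧ f z = z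
  · obtain ⟨w, hw1, hw2, hw3⟩ := hex
    left
    exact ⟨c, hc, fun z hz1 hz2 =>
      affine_fix h ⟨le_rfl, hc.le⟩ ⟨hw1.le, hw2.le⟩ hw1 hp hw3 z ⟨hz1.le, hz2.le⟩⟩
  · right
    exact ⟨c, hc, fun z hz1 hz2 hz3 => hex ⟨z, hz1, hz2, hz3⟩⟩

theorem pl_isoL {f : unitInterval ≃o unitInterval} (hf : IsPL f) (p : unitInterval) (hp : f p = p)
    (hpt : ⊥ < p) : (∃ c, c < p ∧ ∀ z, c < z → z < p → f z = z) ∨
      (∃ c, c < p ∧ ∀ z, c < z → z < p → f z ≠ z) := by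
  obtain ⟨B, hB, hf⟩ := hf
  obtain ⟨c, hc, hno⟩ := exists_left hB hpt
  obtain ⟨a, b, h⟩ := hf c p hc hno
  by_cases hex : ∃ z, c < z ∧ z < p ∧ f z = z
  · obtain ⟨w, hw1, hw2, hw3⟩ := hex
    left
    exact ⟨c, hc, fun z hz1 hz2 =>
      affine_fix h ⟨hw1.le, hw2.le⟩ ⟨hc.le, le_rfl⟩ hw2 hw3 hp z ⟨hz1.le, hz2.le⟩⟩
  · right
    exact ⟨c, hc, fun z hz1 hz2 hz3 => hex ⟨z, hz1, hz2, hz3⟩⟩

theorem germ_aux {f g : unitInterval ≃o unitInterval} {I J : Set unitInterval} {a b a' b' : ℝ}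
    {p : unitInterval} (hpI : p ∈ I) (hpJ : p ∈ J)
    (hf : ∀ y ∈ I, (f y : ℝ) = a * (y : ℝ) + b) (hg : ∀ y ∈ J, (g y : ℝ) = a' * (y : ℝ) + b')
    (fp : f p = p) (gp : g p = p) (z : unitInterval) (h1 : z ∈ I) (h2 : z ∈ J) (h3 : g z ∈ I)
    (h4 : f z ∈ J) : f (g z) = g (f z) := by
  have e1 := hf p hpI
  have e2 := hg p hpJ
  rw [fp] at e1
  rw [gp] at e2
  apply Subtype.ext
  rw [hf _ h3, hg _ h2, hg _ h4, hf _ h1]
  have eb : b = p - a * p := by linarith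
  have eb' : b' = p - a' * p := by linarith
  rw [eb, eb']
  ring

theorem pl_germR {f g : unitInterval ≃o unitInterval} (hf : IsPL f) (hg : IsPL g)
    (p : unitInterval) (fp : f p = p) (gp : g p = p) (hpt : p < ⊤) :
    ∃ c, p < c ∧ ∀ z, p ≤ z → z ≤ c → f (g z) = g (f z) := by
  obtain ⟨B, hB, hf⟩ := hf
  obtain ⟨c1, hc1, hno1⟩ := exists_right hB hpt
  obtain ⟨a, b, h1⟩ := hf p c1 hc1 hno1
  obtain ⟨B', hB', hg⟩ := hg
  obtain ⟨c2, hc2, hno2⟩ := exists_right hB' hpt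
  obtain ⟨a', b', h2⟩ := hg p c2 hc2 hno2
  have hg1 : p < g.symm c1 := by
    rw [← g.lt_iff_lt, gp]; simpa using hc1
  have hf2 : p < f.symm c2 := by
    rw [← f.lt_iff_lt, fp]; simpa using hc2
  refine ⟨min (min c1 c2) (min (g.symm c1) (f.symm c2)), by simp [hc1, hc2, hg1, hf2],
    fun z hz1 hz2 => ?_⟩
  rw [le_min_iff, le_min_iff, le_min_iff] at hz2
  obtain ⟨⟨k1, k2⟩, k3, k4⟩ := hz2
  apply germ_aux (I := Icc p c1) (J := Icc p c2) ⟨le_rfl, hc1.le⟩ ⟨le_rfl, hc2.le⟩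
    (fun y hy => h1 y hy.1 hy.2) (fun y hy => h2 y hy.1 hy.2) fp gp z ⟨hz1, k1⟩ ⟨hz1, k2⟩
  · constructor
    · have := g.monotone hz1; rwa [gp] at this
    · have := g.monotone k3; simpa using this
  · constructor
    · have := f.monotone hz1; rwa [fp] at this
    · have := f.monotone k4; simpa using this

theorem pl_germL {f g : unitInterval ≃o unitInterval} (hf : IsPL f) (hg : IsPL g)
    (p : unitInterval) (fp : f p = p) (gp : g p = p) (hpt : ⊥ < p) :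
    ∃ c, c < p ∧ ∀ z, c ≤ z → z ≤ p → f (g z) = g (f z) := by
  obtain ⟨B, hB, hf⟩ := hf
  obtain ⟨c1, hc1, hno1⟩ := exists_left hB hpt
  obtain ⟨a, b, h1⟩ := hf c1 p hc1 hno1
  obtain ⟨B', hB', hg⟩ := hg
  obtain ⟨c2, hc2, hno2⟩ := exists_left hB' hpt
  obtain ⟨a', b', h2⟩ := hg c2 p hc2 hno2
  have hg1 : g.symm c1 < p := by
    rw [← g.lt_iff_lt, gp]; simpa using hc1
  have hf2 : f.symm c2 < p := by
    rw [← f.lt_iff_lt, fp]; simpa using hc2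
  refine ⟨max (max c1 c2) (max (g.symm c1) (f.symm c2)), by simp [hc1, hc2, hg1, hf2],
    fun z hz2 hz1 => ?_⟩
  rw [max_le_iff, max_le_iff, max_le_iff] at hz2
  obtain ⟨⟨k1, k2⟩, k3, k4⟩ := hz2
  apply germ_aux (I := Icc c1 p) (J := Icc c2 p) ⟨hc1.le, le_rfl⟩ ⟨hc2.le, le_rfl⟩
    (fun y hy => h1 y hy.1 hy.2) (fun y hy => h2 y hy.1 hy.2) fp gp z ⟨k1, hz1⟩ ⟨k2, hz1⟩
  · constructor
    · have := g.monotone k3; simpa using this
    · have := g.monotone hz1; rwa [gp] at this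
  · constructor
    · have := f.monotone k4; simpa using this
    · have := f.monotone hz1; rwa [fp] at this

open scoped commutatorElement

/-- Elements of `PL₊([0,1])` satisfying the relations of `Sys` satisfy the commutator identity. -/
theorem pl_main {S0 S1 T : unitInterval ≃o unitInterval} {h : ℤ → (unitInterval ≃o unitInterval)}
    (hs : Sys S0 S1 T h) (h1 : IsPL S1) (hh : ∀ i, IsPL (h i)) :
    ⁅⁅h 0, T * h 1 * T⁻¹⁆, ⁅T * h 0 * T⁻¹, h 1⁆⁆ = 1 :=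
  dyn_main hs
    { finR := fun i => ER_finite (hh i)
      finL := fun i => EL_finite (hh i)
      isoR := fun p hp hpt => pl_isoR (hh 0) p hp hpt
      isoL := fun p hp hpt => pl_isoL (hh 0) p hp hpt
      germR := fun p hp1 hp2 hpt => pl_germR h1 (hh 1) p hp1 hp2 hpt
      germL := fun p hp1 hp2 hpt => pl_germL h1 (hh 1) p hp1 hp2 hpt }

end Pool.Agent.LibDiag
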