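import Pool.Agent.LibDiag.Rep
import Pool.Agent.LibDiag.PLReg

namespace Pool.Agent.LibDiag

open CategoryTheory
open scoped commutatorElement

/-- the group word -/
def gg {G : Type*} [Group G] (T a b : G) : G := ⁅⁅a, T * b * T⁻¹⁆, ⁅T * a * T⁻¹, b⁆⁆

theorem map_gg {G G' : Type*} [Group G] [Group G'] (φ : G →* G') (T a b : G) :
    φ (gg T a b) = gg (φ T) (φ a) (φ b) := by
  simp only [gg, map_commutatorElement, map_mul, map_inv]

theorem pl_kills {G : Type*} [Group G] {S0 S1 T : G} {h : ℤ → G} (hs : GSys S0 S1 T h)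
    (φ : G →* PLplus) : φ (gg T (h 0) (h 1)) = 1 := by
  apply Subtype.ext
  have key : ∀ a b c d : G, a * b = c * d → ∀ z, (φ a : unitInterval ≃o unitInterval)
      ((φ b : unitInterval ≃o unitInterval) z) = (φ c : unitInterval ≃o unitInterval)
      ((φ d : unitInterval ≃o unitInterval) z) := by
    intro a b c d hab z
    have h1 : φ a * φ b = φ c * φ d := by rw [← map_mul, ← map_mul, hab]
    have h2 : ((φ a : unitInterval ≃o unitInterval) * (φ b : unitInterval ≃o unitInterval)) =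
      (φ c : unitInterval ≃o unitInterval) * (φ d : unitInterval ≃o unitInterval) :=
      congrArg Subtype.val h1
    have h3 := DFunLike.congr_fun h2 z
    rwa [RelIso.mul_apply, RelIso.mul_apply] at h3
  have hsys : Sys (φ S0 : unitInterval ≃o unitInterval) (φ S1 : unitInterval ≃o unitInterval)
      (φ T : unitInterval ≃o unitInterval)
      (fun i => (φ (h i) : unitInterval ≃o unitInterval)) :=
    { s := fun i z => key _ _ _ _ (hs.s i) z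
      r1 := fun i hi z => key _ _ _ _ (hs.r1 i hi) z
      r2 := fun i hi z => key _ _ _ _ (hs.r2 i hi) z
      r3 := fun i z => key _ _ _ _ (hs.r3 i) z
      r4 := fun i hi z => key _ _ _ _ (hs.r4 i hi) z }
  have hm := pl_main hsys (φ S1).2 (fun i => (φ (h i)).2)
  rw [map_gg]
  exact hm

/-- `ρ` -/
def rh : O (P := P3) 0 ⟶ O 2 := ed 2 0 0 2 (Or.inr rfl) le_rfl rfl

/-- the element `h` -/
noncomputable def eh : O (P := P3) 0 ⟶ O 0 :=
  ed 2 0 0 2 (Or.inr rfl) le_rfl rfl ≫ inv (ed 1 1 1 2 (Or.inl rfl) le_rfl rfl) ≫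
    inv (ed 1 0 0 1 (Or.inl rfl) le_rfl rfl)

/-- the element `t` -/
noncomputable def et : O (P := P3) 0 ⟶ O 0 :=
  ed 2 0 0 2 (Or.inr rfl) le_rfl rfl ≫ inv (ed 1 0 1 2 (Or.inl rfl) (by omega) rfl) ≫
    inv (ed 1 0 0 1 (Or.inl rfl) le_rfl rfl)

/-- `x → x⁵` -/
noncomputable def rh2 : O (P := P3) 0 ⟶ O 4 :=
  ed 2 0 0 2 (Or.inr rfl) le_rfl rfl ≫ ed 2 0 2 4 (Or.inr rfl) (by omega) rfl

/-- the element `t`, transported to `x⁵` -/
noncomputable def et5 : O (P := P3) 4 ⟶ O 4 := inv rh2 ≫ et ≫ rh2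

/-- the element in the group at `x⁹` -/
noncomputable def g9 : O (P := P3) 8 ⟶ O 8 :=
  gg (Pl et5 8 2 (by omega)) (hh rh eh 0) (hh rh eh 1)

theorem g9_killed (φ : (O (P := P3) 8 ⟶ O 8) →* PLplus) : φ g9 = 1 :=
  pl_kills (gsys rh eh et5) φ

/-- the homomorphism to permutations -/
noncomputable def Ps9 : (O (P := P3) 8 ⟶ O 8) →* Equiv.Perm (ℕ × ℕ) where
  toFun p := (Ph p)⁻¹
  map_one' := by
    have : Ph (𝟙 (O (P := P3) 8)) = 1 := RFun.map_id _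
    change (Ph (𝟙 (O (P := P3) 8)))⁻¹ = 1
    rw [this, inv_one]
  map_mul' p q := by
    rw [mul_def, Ph_comp, mul_inv_rev]

theorem Ph_h (j : ℕ) (hj : j + 0 ≤ 8) :
    Ph (Pl eh 8 j hj) = (R 1 j)⁻¹ * (R 1 (j + 1))⁻¹ * R 2 j := by
  unfold Pl eh
  rw [U_comp (y' := 10) _ _ _ (by omega), U_comp (y' := 9) _ _ _ (by omega),
    U_inv (x' := 9) (y' := 10) _ _ (by omega) (by omega),
    U_inv (x' := 8) (y' := 9) _ _ (by omega) (by omega), Ph_comp, Ph_comp, Ph_inv, Ph_inv,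
    Ph_U_ed, Ph_U_ed, Ph_U_ed]
  rfl

theorem Ph_T : Ph (Pl et5 8 2 (by omega)) =
    R 2 2 * R 2 2 * ((R 1 2)⁻¹ * (R 1 2)⁻¹ * R 2 2) * (R 2 2 * R 2 2)⁻¹ := by
  unfold Pl et5 et rh2
  rw [U_comp (y' := 4) _ _ _ (by omega), U_comp (y' := 4) _ _ _ (by omega),
    U_inv (x' := 4) (y' := 8) _ _ (by omega) (by omega),
    U_comp (y' := 6) _ _ _ (by omega),
    U_comp (y' := 6) _ _ _ (by omega), U_comp (y' := 5) _ _ _ (by omega),
    U_inv (x' := 5) (y' := 6) _ _ (by omega) (by omega),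
    U_inv (x' := 4) (y' := 5) _ _ (by omega) (by omega)]
  simp only [Ph_comp, Ph_inv, Ph_U_ed]

theorem g9_ne : g9 ≠ 1 := by
  intro h
  have h1 : Ps9 g9 = 1 := by rw [h, map_one]
  have hT : Ps9 (Pl et5 8 2 (by omega)) =
    (R 2 2 * R 2 2 * ((R 1 2)⁻¹ * (R 1 2)⁻¹ * R 2 2) * (R 2 2 * R 2 2)⁻¹)⁻¹ :=
    congrArg (·⁻¹) Ph_T
  have h0 : Ps9 (Pl eh 8 3 (by omega)) = ((R 1 3)⁻¹ * (R 1 (3 + 1))⁻¹ * R 2 3)⁻¹ :=
    congrArg (·⁻¹) (Ph_h 3 (by omega))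
  have h5 : Ps9 (Pl eh 8 5 (by omega)) = ((R 1 5)⁻¹ * (R 1 (5 + 1))⁻¹ * R 2 5)⁻¹ :=
    congrArg (·⁻¹) (Ph_h 5 (by omega))
  rw [g9, map_gg, hh_zero, hh_one, hT, h0, h5] at h1
  have h2 := DFunLike.congr_fun h1 ((5, 7) : ℕ × ℕ)
  revert h2
  decide +kernel

/-- a morphism from `x ^ (n + 1)` to `x` -/
noncomputable def down : (n : ℕ) → (O (P := P3) n ⟶ O 0)
  | 0 => 𝟙 _
  | n + 1 => inv (ed 1 0 n (n + 1) (Or.inl rfl) (by omega) rfl) ≫ down n

theorem all_base (w : Vtx P3) :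
    ∃ g : DiagramGroup P3 w, g ≠ 1 ∧ ∀ φ : DiagramGroup P3 w →* PLplus, φ g = 1 := by
  obtain ⟨n, hn⟩ : ∃ n, w.word.length = n + 1 :=
    ⟨w.word.length - 1, by have := List.length_pos_iff.2 w.ne; omega⟩
  have hw : pt w = O n := obj_ext' (by rw [ln_O]; exact hn)
  let c : O (P := P3) 8 ⟶ pt w := down 8 ≫ inv (down n) ≫ eqToHom hw.symm
  let e : (O (P := P3) 8 ⟶ O 8) ≃* DiagramGroup P3 w := Groupoid.vertexGroupIsomOfMap c
  refine ⟨e g9, fun h => g9_ne (e.injective (h.trans (map_one e).symm)), fun φ => ?_⟩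
  exact g9_killed (φ.comp e.toMonoidHom)

end Pool.Agent.LibDiag
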