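import Mathlib

namespace Pool.Agent.LibDiag

/-- An increasing bijection `f` of `[0,1]` is piecewise linear with finitely many breakpoints: there
is a finite set `B` such that `f` is affine on every interval `[c,d]` whose interior contains no
point of `B`. -/
def IsPL (f : unitInterval ≃o unitInterval) : Prop :=
  ∃ B : Set unitInterval, B.Finite ∧ ∀ c d : unitInterval, c < d →
    (∀ z ∈ B, ¬ (c < z ∧ z < d)) →
      ∃ a b : ℝ, ∀ y : unitInterval, c ≤ y → y ≤ d → (f y : ℝ) = a * (y : ℝ) + b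

/-- A real number is a dyadic rational, i.e. lies in `ℤ[1/2]`. -/
def IsDyadic (x : ℝ) : Prop := ∃ (m : ℤ) (k : ℕ), x = m / 2 ^ k

/-- The condition defining Thompson's group `F`: piecewise linear, with all breakpoints dyadic
rationals and all slopes integer powers of `2`. -/
def IsF (f : unitInterval ≃o unitInterval) : Prop :=
  ∃ B : Set unitInterval, B.Finite ∧ (∀ z ∈ B, IsDyadic (z : ℝ)) ∧ ∀ c d : unitInterval, c < d →
    (∀ z ∈ B, ¬ (c < z ∧ z < d)) →
      ∃ (n : ℤ) (b : ℝ), ∀ y : unitInterval, c ≤ y → y ≤ d →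
        (f y : ℝ) = (2 : ℝ) ^ n * (y : ℝ) + b

theorem isPL_mul {f g : unitInterval ≃o unitInterval} (hf : IsPL f) (hg : IsPL g) :
    IsPL (f * g) := by
  obtain ⟨B, hB, hf⟩ := hf
  obtain ⟨B', hB', hg⟩ := hg
  refine ⟨B' ∪ g.symm '' B, hB'.union (hB.image _), fun c d hcd hno => ?_⟩
  obtain ⟨a', b', h1⟩ := hg c d hcd fun z hz => hno z (Or.inl hz)
  obtain ⟨a, b, h2⟩ := hf (g c) (g d) (g.lt_iff_lt.2 hcd) fun z hz hzz => by
    apply hno (g.symm z) (Or.inr ⟨z, hz, rfl⟩)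
    constructor
    · rw [← g.lt_iff_lt]; simpa using hzz.1
    · rw [← g.lt_iff_lt]; simpa using hzz.2
  refine ⟨a * a', a * b' + b, fun y hy1 hy2 => ?_⟩
  rw [RelIso.mul_apply, h2 _ (g.monotone hy1) (g.monotone hy2), h1 y hy1 hy2]
  ring

theorem slope_ne {f : unitInterval ≃o unitInterval} {c d : unitInterval} (hcd : c < d) {a b : ℝ}
    (h : ∀ y : unitInterval, c ≤ y → y ≤ d → (f y : ℝ) = a * (y : ℝ) + b) : a ≠ 0 := by
  intro ha
  have h1 := h c le_rfl hcd.le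
  have h2 := h d hcd.le le_rfl
  rw [ha, zero_mul, zero_add] at h1 h2
  have : f c = f d := Subtype.ext (h1.trans h2.symm)
  exact absurd (f.injective this) hcd.ne

theorem isPL_inv {f : unitInterval ≃o unitInterval} (hf : IsPL f) : IsPL f⁻¹ := by
  obtain ⟨B, hB, hf⟩ := hf
  refine ⟨f '' B, hB.image _, fun c d hcd hno => ?_⟩
  have hcd' : f⁻¹ c < f⁻¹ d := (OrderIso.lt_iff_lt _).2 hcd
  obtain ⟨a, b, h1⟩ := hf (f⁻¹ c) (f⁻¹ d) hcd' fun z hz hzz => by
    apply hno (f z) ⟨z, hz, rfl⟩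
    constructor
    · have := f.lt_iff_lt.2 hzz.1
      rwa [RelIso.apply_inv_self] at this
    · have := f.lt_iff_lt.2 hzz.2
      rwa [RelIso.apply_inv_self] at this
  have ha := slope_ne hcd' h1
  refine ⟨a⁻¹, -(a⁻¹ * b), fun y hy1 hy2 => ?_⟩
  have h2 := h1 (f⁻¹ y) ((f⁻¹ : unitInterval ≃o unitInterval).monotone hy1)
    ((f⁻¹ : unitInterval ≃o unitInterval).monotone hy2)
  rw [RelIso.apply_inv_self] at h2
  rw [h2]
  field_simp
  ring

theorem isPL_one : IsPL 1 :=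
  ⟨∅, Set.finite_empty, fun _ _ _ _ => ⟨1, 0, fun y _ _ => by
    change (y : ℝ) = _
    ring⟩⟩

/-- The group `PL₊([0,1])` of orientation-preserving piecewise linear homeomorphisms of `[0,1]`
with finitely many breakpoints, under composition. -/
def PLplus : Subgroup (unitInterval ≃o unitInterval) where
  carrier := {f | IsPL f}
  mul_mem' := isPL_mul
  one_mem' := isPL_one
  inv_mem' := isPL_inv

theorem isDyadic_add {x y : ℝ} (hx : IsDyadic x) (hy : IsDyadic y) : IsDyadic (x + y) := by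
  obtain ⟨m, k, rfl⟩ := hx
  obtain ⟨n, l, rfl⟩ := hy
  refine ⟨m * 2 ^ l + n * 2 ^ k, k + l, ?_⟩
  push_cast
  field_simp
  ring

theorem isDyadic_neg {x : ℝ} (hx : IsDyadic x) : IsDyadic (-x) := by
  obtain ⟨m, k, rfl⟩ := hx
  exact ⟨-m, k, by push_cast; ring⟩

theorem isDyadic_sub {x y : ℝ} (hx : IsDyadic x) (hy : IsDyadic y) : IsDyadic (x - y) := by
  rw [sub_eq_add_neg]; exact isDyadic_add hx (isDyadic_neg hy)

theorem isDyadic_zpow_mul {x : ℝ} (n : ℤ) (hx : IsDyadic x) : IsDyadic ((2 : ℝ) ^ n * x) := by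
  obtain ⟨m, k, rfl⟩ := hx
  rcases Int.eq_nat_or_neg n with ⟨j, rfl | rfl⟩
  · refine ⟨2 ^ j * m, k, ?_⟩
    rw [zpow_natCast]
    push_cast
    ring
  · refine ⟨m, k + j, ?_⟩
    rw [zpow_neg, zpow_natCast, pow_add]
    field_simp

/-- Elements of `F` map dyadic rationals to dyadic rationals. -/
theorem isF_dyadic {f : unitInterval ≃o unitInterval} (hf : IsF f) {y : unitInterval}
    (hy : IsDyadic (y : ℝ)) : IsDyadic (f y : ℝ) := by
  obtain ⟨B, hB, hdy, hf⟩ := hf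
  by_contra hcon
  let S : Set unitInterval := ({y} ∪ B) ∩ {z | ¬ IsDyadic (f z : ℝ)}
  have hSfin : S.Finite := ((Set.finite_singleton y).union hB).inter_of_left _
  have hSne : S.Nonempty := ⟨y, Or.inl rfl, hcon⟩
  obtain ⟨z, hzS, hzmin⟩ := Set.exists_min_image S id hSfin hSne
  have hzd : IsDyadic (z : ℝ) := by
    rcases hzS.1 with h | h
    · rw [Set.mem_singleton_iff.1 h]; exact hy
    · exact hdy z h
  have h0 : (⊥ : unitInterval) < z := by
    rw [bot_lt_iff_ne_bot]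
    rintro rfl
    apply hzS.2
    rw [OrderIso.map_bot]
    exact ⟨0, 0, by simp⟩
  let S' : Set unitInterval := ({⊥} ∪ B) ∩ {w | w < z}
  have hS'fin : S'.Finite := ((Set.finite_singleton _).union hB).inter_of_left _
  have hS'ne : S'.Nonempty := ⟨⊥, Or.inl rfl, h0⟩
  obtain ⟨w, hwS, hwmax⟩ := Set.exists_max_image S' id hS'fin hS'ne
  have hwd : IsDyadic (w : ℝ) := by
    rcases hwS.1 with h | h
    · rw [Set.mem_singleton_iff.1 h]
      exact ⟨0, 0, by simp⟩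
    · exact hdy w h
  have hfw : IsDyadic (f w : ℝ) := by
    by_contra hcon2
    rcases hwS.1 with h | h
    · rw [Set.mem_singleton_iff.1 h, OrderIso.map_bot] at hcon2
      exact hcon2 ⟨0, 0, by simp⟩
    · have := hzmin w ⟨Or.inr h, hcon2⟩
      exact absurd hwS.2 (not_lt.2 this)
  obtain ⟨n, b, h1⟩ := hf w z hwS.2 fun t ht htt => by
    have := hwmax t ⟨Or.inr ht, htt.2⟩
    exact absurd htt.1 (not_lt.2 this)
  have e1 := h1 w le_rfl hwS.2.le
  have e2 := h1 z hwS.2.le le_rfl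
  apply hzS.2
  have : (f z : ℝ) = (f w : ℝ) + (2 : ℝ) ^ n * ((z : ℝ) - w) := by rw [e1, e2]; ring
  rw [this]
  exact isDyadic_add hfw (isDyadic_zpow_mul n (isDyadic_sub hzd hwd))

theorem isF_inv {f : unitInterval ≃o unitInterval} (hf : IsF f) : IsF f⁻¹ := by
  have hf0 := hf
  obtain ⟨B, hB, hdy, hf⟩ := hf
  refine ⟨f '' B, hB.image _, ?_, fun c d hcd hno => ?_⟩
  · rintro _ ⟨z, hz, rfl⟩
    exact isF_dyadic hf0 (hdy z hz)
  have hcd' : f⁻¹ c < f⁻¹ d := (OrderIso.lt_iff_lt _).2 hcd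
  obtain ⟨n, b, h1⟩ := hf (f⁻¹ c) (f⁻¹ d) hcd' fun z hz hzz => by
    apply hno (f z) ⟨z, hz, rfl⟩
    constructor
    · have := f.lt_iff_lt.2 hzz.1
      rwa [RelIso.apply_inv_self] at this
    · have := f.lt_iff_lt.2 hzz.2
      rwa [RelIso.apply_inv_self] at this
  refine ⟨-n, -((2 : ℝ) ^ (-n) * b), fun y hy1 hy2 => ?_⟩
  have h2 := h1 (f⁻¹ y) ((f⁻¹ : unitInterval ≃o unitInterval).monotone hy1)
    ((f⁻¹ : unitInterval ≃o unitInterval).monotone hy2)
  rw [RelIso.apply_inv_self] at h2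
  rw [h2, zpow_neg]
  have : (2 : ℝ) ^ n ≠ 0 := zpow_ne_zero _ (by norm_num)
  field_simp
  ring

theorem isF_mul {f g : unitInterval ≃o unitInterval} (hf : IsF f) (hg : IsF g) :
    IsF (f * g) := by
  have hgi := isF_inv hg
  obtain ⟨B, hB, hdy, hf⟩ := hf
  obtain ⟨B', hB', hdy', hg⟩ := hg
  refine ⟨B' ∪ g.symm '' B, hB'.union (hB.image _), ?_, fun c d hcd hno => ?_⟩
  · rintro z (hz | ⟨w, hw, rfl⟩)
    · exact hdy' z hz
    · exact isF_dyadic hgi (hdy w hw)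
  obtain ⟨a', b', h1⟩ := hg c d hcd fun z hz => hno z (Or.inl hz)
  obtain ⟨a, b, h2⟩ := hf (g c) (g d) (g.lt_iff_lt.2 hcd) fun z hz hzz => by
    apply hno (g.symm z) (Or.inr ⟨z, hz, rfl⟩)
    constructor
    · rw [← g.lt_iff_lt]; simpa using hzz.1
    · rw [← g.lt_iff_lt]; simpa using hzz.2
  refine ⟨a + a', (2 : ℝ) ^ a * b' + b, fun y hy1 hy2 => ?_⟩
  rw [RelIso.mul_apply, h2 _ (g.monotone hy1) (g.monotone hy2), h1 y hy1 hy2,
    zpow_add₀ (by norm_num : (2 : ℝ) ≠ 0)]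
  ring

/-- Thompson's group `F`, as a subgroup of the group of increasing bijections of `[0,1]`. -/
def ThompsonF : Subgroup (unitInterval ≃o unitInterval) where
  carrier := {f | IsF f}
  mul_mem' := isF_mul
  one_mem' := ⟨∅, Set.finite_empty, by simp, fun _ _ _ _ => ⟨0, 0, fun y _ _ => by
    change (y : ℝ) = _
    simp⟩⟩
  inv_mem' := isF_inv

theorem ThompsonF_le_PLplus : ThompsonF ≤ PLplus := by
  rintro f ⟨B, hB, _, hf⟩
  refine ⟨B, hB, fun c d hcd hno => ?_⟩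
  obtain ⟨n, b, h⟩ := hf c d hcd hno
  exact ⟨_, b, h⟩

end Pool.Agent.LibDiag
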