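import Pool.Agent.LibDiag.Squier4

namespace Pool.Agent.LibDiag

open CategoryTheory

variable {P : SgPres Unit}

theorem O_len {a b m m' : ℕ} (h : m' = a + m + b) :
    ln (O (P := P) m') = a + ln (O (P := P) m) + b := by
  rw [ln_O, ln_O]; omega

/-- whiskering, indices version; `O n` is `x ^ (n + 1)` -/
def U (a b : ℕ) {m n m' n' : ℕ} (hm : m' = a + m + b) (hn : n' = a + n + b)
    (p : O (P := P) m ⟶ O n) : O (P := P) m' ⟶ O n' := V a b (O_len hm) (O_len hn) p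

theorem U_id (a b : ℕ) {m m' : ℕ} (h1 h2 : m' = a + m + b) :
    U (P := P) a b h1 h2 (𝟙 _) = 𝟙 _ := V_id _ _ _ _

theorem U_comp (a b : ℕ) {x y z x' y' z' : ℕ} (hx : x' = a + x + b)
    (hy : y' = a + y + b) (hz : z' = a + z + b) (p : O (P := P) x ⟶ O y) (q : O (P := P) y ⟶ O z) :
    U a b hx hz (p ≫ q) = U a b hx hy p ≫ U a b hy hz q := V_comp _ _ _ _ _ _ _

theorem U_inv (a b : ℕ) {x y x' y' : ℕ} (hx : x' = a + x + b)
    (hy : y' = a + y + b) (p : O (P := P) x ⟶ O y) :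
    U a b hy hx (inv p) = inv (U a b hx hy p) := V_inv _ _ _ _ _

theorem U_U (a b c d e f : ℕ) {x y x' y' x'' y'' : ℕ} (p : O (P := P) x ⟶ O y)
    (h1 : x' = c + x + d) (h2 : y' = c + y + d)
    (h3 : x'' = a + x' + b) (h4 : y'' = a + y' + b)
    (h5 : x'' = e + x + f) (h6 : y'' = e + y + f) (he : a + c = e) :
    U a b h3 h4 (U c d h1 h2 p) = U e f h5 h6 p := V_V _ _ _ _ _ _ _ _ _ _ _ _ _ he

theorem U_comm {x y : ℕ} (p : O (P := P) x ⟶ O y) {z w : ℕ} (q : O (P := P) z ⟶ O w)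
    {a b1 b2 c1 c2 d : ℕ} {X Y Z T : ℕ}
    (hX1 : X = a + x + b1) (hY1 : Y = a + y + b1)
    (hY2 : Y = c1 + z + d) (hZ2 : Z = c1 + w + d)
    (hX2 : X = c2 + z + d) (hT2 : T = c2 + w + d)
    (hT1 : T = a + x + b2) (hZ1 : Z = a + y + b2) (hle : a + (x + 1) ≤ c2) :
    U a b1 hX1 hY1 p ≫ U c1 d hY2 hZ2 q = U c2 d hX2 hT2 q ≫ U a b2 hT1 hZ1 p :=
  V_comm p q _ _ _ _ _ _ _ _ (by rw [ln_O]; exact hle)

/-- `ρ` applied to the letter number `c` of `x ^ 9` -/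
def Rh (ρ : O (P := P) 0 ⟶ O 2) (c : ℕ) (hc : c ≤ 8) : O (P := P) 8 ⟶ O 10 :=
  U c (8 - c) (by omega) (by omega) ρ

/-- an endomorphism of `O m` placed at the letters `j, …, j + m` of `O N` -/
def Pl {m : ℕ} (k : O (P := P) m ⟶ O m) (N j : ℕ) (h : j + m ≤ N) : O (P := P) N ⟶ O N :=
  U j (N - m - j) (by omega) (by omega) k

theorem Pl_mul {m : ℕ} (k k' : O (P := P) m ⟶ O m) (N j : ℕ) (h : j + m ≤ N) :
    Pl (k ≫ k') N j h = Pl k N j h ≫ Pl k' N j h := U_comp _ _ _ _ _ _ _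

theorem Pl_inv {m : ℕ} (k : O (P := P) m ⟶ O m) (N j : ℕ) (h : j + m ≤ N) :
    Pl (inv k) N j h = inv (Pl k N j h) := U_inv _ _ _ _ _

/-- placed to the right of the place where `ρ` is applied -/
theorem Rh_right (ρ : O (P := P) 0 ⟶ O 2) (c : ℕ) (hc : c ≤ 8) {m : ℕ} (k : O (P := P) m ⟶ O m)
    (j : ℕ) (hj : c + 1 ≤ j) (h : j + m ≤ 8) :
    Rh ρ c hc ≫ Pl k 10 (j + 2) (by omega) = Pl k 8 j h ≫ Rh ρ c hc := by
  have := U_comm ρ k (a := c) (b1 := 8 - c) (b2 := 8 - c) (c1 := j + 2) (c2 := j) (d := 8 - m - j)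
    (X := 8) (Y := 10) (Z := 10) (T := 8) (by omega) (by omega) (by omega) (by omega) (by omega)
    (by omega) (by omega) (by omega) (by omega)
  have e : 10 - m - (j + 2) = 8 - m - j := by omega
  unfold Pl Rh
  simp only [e]
  exact this

/-- placed to the left of the place where `ρ` is applied -/
theorem Rh_left (ρ : O (P := P) 0 ⟶ O 2) (c : ℕ) (hc : c ≤ 8) {m : ℕ} (k : O (P := P) m ⟶ O m)
    (j : ℕ) (hj : j + m + 1 ≤ c) :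
    Rh ρ c hc ≫ Pl k 10 j (by omega) = Pl k 8 j (by omega) ≫ Rh ρ c hc := by
  exact (U_comm k ρ (a := j) (b1 := 8 - m - j) (b2 := 10 - m - j) (c1 := c) (c2 := c) (d := 8 - c)
    (X := 8) (Y := 8) (Z := 10) (T := 10) (by omega) (by omega) (by omega) (by omega) (by omega)
    (by omega) (by omega) (by omega) (by omega)).symm

theorem Rh_right' (ρ : O (P := P) 0 ⟶ O 2) (c : ℕ) (hc : c ≤ 8) {m : ℕ} (k : O (P := P) m ⟶ O m)
    (j : ℕ) (hj : c + 1 ≤ j) (h : j + m ≤ 8) :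
    inv (Rh ρ c hc) ≫ Pl k 8 j h = Pl k 10 (j + 2) (by omega) ≫ inv (Rh ρ c hc) := by
  rw [IsIso.inv_comp_eq, ← Category.assoc, IsIso.eq_comp_inv]
  exact (Rh_right ρ c hc k j hj h).symm

theorem Rh_left' (ρ : O (P := P) 0 ⟶ O 2) (c : ℕ) (hc : c ≤ 8) {m : ℕ} (k : O (P := P) m ⟶ O m)
    (j : ℕ) (hj : j + m + 1 ≤ c) :
    inv (Rh ρ c hc) ≫ Pl k 8 j (by omega) = Pl k 10 j (by omega) ≫ inv (Rh ρ c hc) := by
  rw [IsIso.inv_comp_eq, ← Category.assoc, IsIso.eq_comp_inv]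
  exact (Rh_left ρ c hc k j hj).symm

/-- two placed endomorphisms commute if the places are disjoint -/
theorem Pl_comm {m m' N : ℕ} (k : O (P := P) m ⟶ O m) (k' : O (P := P) m' ⟶ O m') (i j : ℕ)
    (hi : i + m + 1 ≤ j) (hj : j + m' ≤ N) :
    Pl k N i (by omega) ≫ Pl k' N j hj = Pl k' N j hj ≫ Pl k N i (by omega) :=
  U_comm k k' _ _ _ _ _ _ _ _ hi

/-- the shift `S` with `ρ` applied at the last letter and `ρ⁻¹` at `c` -/
noncomputable def Sh (ρ : O (P := P) 0 ⟶ O 2) (c : ℕ) (hc : c ≤ 8) : O (P := P) 8 ⟶ O 8 :=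
  Rh ρ 8 le_rfl ≫ inv (Rh ρ c hc)

theorem Sh_shift (ρ : O (P := P) 0 ⟶ O 2) (c : ℕ) (hc : c ≤ 8) {m : ℕ} (k : O (P := P) m ⟶ O m)
    (j : ℕ) (hj : c + 1 ≤ j) (h : j + m + 3 ≤ 8) :
    Sh ρ c hc ≫ Pl k 8 j (by omega) = Pl k 8 (j + 2) (by omega) ≫ Sh ρ c hc := by
  unfold Sh
  rw [Category.assoc, Rh_right' ρ c hc k j hj (by omega), ← Category.assoc,
    Rh_left ρ 8 le_rfl k (j + 2) (by omega), Category.assoc]

theorem Sh_fix (ρ : O (P := P) 0 ⟶ O 2) (c : ℕ) (hc : c ≤ 8) {m : ℕ} (k : O (P := P) m ⟶ O m)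
    (j : ℕ) (hj : j + m + 1 ≤ c) :
    Sh ρ c hc ≫ Pl k 8 j (by omega) = Pl k 8 j (by omega) ≫ Sh ρ c hc := by
  unfold Sh
  rw [Category.assoc, Rh_left' ρ c hc k j hj, ← Category.assoc,
    Rh_left ρ 8 le_rfl k j (by omega), Category.assoc]

/-- the right tail map -/
noncomputable def Ps (ρ : O (P := P) 0 ⟶ O 2) (k : O (P := P) 1 ⟶ O 1) : O (P := P) 1 ⟶ O 1 :=
  U 1 0 rfl rfl ρ ≫ Pl k 3 2 (by omega) ≫ inv (U (m' := 1) (n' := 3) 1 0 rfl rfl ρ)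

theorem Pl_Pl {m m' N : ℕ} (k : O (P := P) m ⟶ O m) (i j e : ℕ) (hi : i + m ≤ m')
    (hj : j + m' ≤ N) (he : j + i = e) :
    Pl (Pl k m' i hi) N j hj = Pl k N e (by omega) :=
  U_U _ _ _ _ _ _ k _ _ _ _ _ _ he

/-- the right tail is moved by `Ps` under every shift -/
theorem Sh_tail (ρ : O (P := P) 0 ⟶ O 2) (c : ℕ) (hc : c ≤ 6) (k : O (P := P) 1 ⟶ O 1) :
    Sh ρ c (by omega) ≫ Pl k 8 7 (by omega) = Pl (Ps ρ k) 8 7 (by omega) ≫ Sh ρ c (by omega) := by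
  have e1 : Pl (Ps ρ k) 8 7 (by omega) =
      Rh ρ 8 le_rfl ≫ Pl k 10 9 (by omega) ≫ inv (Rh ρ 8 le_rfl) := by
    have a1 : U 7 0 rfl rfl (U (m' := 1) (n' := 3) 1 0 rfl rfl ρ) = Rh ρ 8 le_rfl :=
      U_U 7 0 1 0 8 0 ρ rfl rfl rfl rfl rfl rfl rfl
    have a2 : U 7 0 rfl rfl (Pl k 3 2 (by omega)) = Pl k 10 9 (by omega) :=
      U_U 7 0 2 0 9 0 k rfl rfl rfl rfl rfl rfl rfl
    calc Pl (Ps ρ k) 8 7 (by omega)
        = U 7 0 rfl rfl (U 1 0 rfl rfl ρ ≫ Pl k 3 2 (by omega) ≫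
            inv (U (m' := 1) (n' := 3) 1 0 rfl rfl ρ)) := rfl
      _ = _ := by
        rw [U_comp (y' := 10) 7 0 rfl rfl rfl, U_comp (y' := 10) 7 0 rfl rfl rfl,
          U_inv (x' := 8) (y' := 10) 7 0 rfl rfl, a1, a2]
  rw [e1]
  unfold Sh
  rw [Category.assoc, Rh_right' ρ c (by omega) k 7 (by omega) (by omega)]
  simp only [Category.assoc, IsIso.inv_hom_id_assoc]

/-- the left tail map -/
noncomputable def Ps' (ρ : O (P := P) 0 ⟶ O 2) (k : O (P := P) 1 ⟶ O 1) : O (P := P) 1 ⟶ O 1 :=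
  U 0 1 rfl rfl ρ ≫ Pl k 3 0 (by omega) ≫ inv (U (m' := 1) (n' := 3) 0 1 rfl rfl ρ)

theorem Sh_tail' (ρ : O (P := P) 0 ⟶ O 2) (k : O (P := P) 1 ⟶ O 1) :
    Sh ρ 0 (by omega) ≫ Pl (Ps' ρ k) 8 0 (by omega) =
      Pl k 8 0 (by omega) ≫ Sh ρ 0 (by omega) := by
  have e1 : Pl (Ps' ρ k) 8 0 (by omega) =
      Rh ρ 0 (by omega) ≫ Pl k 10 0 (by omega) ≫ inv (Rh ρ 0 (by omega)) := by
    have a1 : U 0 7 rfl rfl (U (m' := 1) (n' := 3) 0 1 rfl rfl ρ) = Rh ρ 0 (by omega) :=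
      U_U 0 7 0 1 0 8 ρ rfl rfl rfl rfl rfl rfl rfl
    have a2 : U 0 7 rfl rfl (Pl k 3 0 (by omega)) = Pl k 10 0 (by omega) :=
      U_U 0 7 0 2 0 9 k rfl rfl rfl rfl rfl rfl rfl
    calc Pl (Ps' ρ k) 8 0 (by omega)
        = U 0 7 rfl rfl (U 0 1 rfl rfl ρ ≫ Pl k 3 0 (by omega) ≫
            inv (U (m' := 1) (n' := 3) 0 1 rfl rfl ρ)) := rfl
      _ = _ := by
        rw [U_comp (y' := 10) 0 7 rfl rfl rfl, U_comp (y' := 10) 0 7 rfl rfl rfl,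
          U_inv (x' := 8) (y' := 10) 0 7 rfl rfl, a1, a2]
  rw [e1]
  unfold Sh
  rw [Category.assoc, IsIso.inv_hom_id_assoc, ← Category.assoc, ← Category.assoc,
    Rh_left ρ 8 le_rfl k 0 (by omega)]

end Pool.Agent.LibDiag
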