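import Pool.Agent.LibDiag.Rel

namespace Pool.Agent.LibDiag

open CategoryTheory

/-- The relations used in the argument. -/
structure GSys {G : Type*} [Group G] (S0 S1 T : G) (h : ℤ → G) : Prop where
  s : ∀ i, S0 * h i = h (i + 1) * S0
  r1 : ∀ i, i ≤ 0 → S1 * h i = h i * S1
  r2 : ∀ i, 1 ≤ i → S1 * h i = h (i + 1) * S1
  r3 : ∀ i, h 0 * h i = h i * h 0
  r4 : ∀ i, (i ≤ -1 ∨ 2 ≤ i) → T * h i = h i * T

variable {P : SgPres Unit}

noncomputable instance (n : ℕ) : Group (O (P := P) n ⟶ O n) := Groupoid.vertexGroup (O n)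

theorem mul_def {n : ℕ} (p q : O (P := P) n ⟶ O n) : p * q = p ≫ q := rfl

/-- the conjugates of `H` under the powers of the shift -/
noncomputable def hh (ρ : O (P := P) 0 ⟶ O 2) (h : O (P := P) 0 ⟶ O 0) (i : ℤ) :
    O (P := P) 8 ⟶ O 8 :=
  (Sh ρ 0 (by omega)) ^ i * Pl h 8 3 (by omega) * ((Sh ρ 0 (by omega)) ^ i)⁻¹

/-- right tails -/
noncomputable def mr (ρ : O (P := P) 0 ⟶ O 2) (h : O (P := P) 0 ⟶ O 0) :
    ℕ → (O (P := P) 1 ⟶ O 1)
  | 0 => Pl h 1 0 (by omega)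
  | n + 1 => Ps ρ (mr ρ h n)

/-- left tails -/
noncomputable def ml (ρ : O (P := P) 0 ⟶ O 2) (h : O (P := P) 0 ⟶ O 0) :
    ℕ → (O (P := P) 1 ⟶ O 1)
  | 0 => Pl h 1 1 (by omega)
  | n + 1 => Ps' ρ (ml ρ h n)

theorem hh_s (ρ : O (P := P) 0 ⟶ O 2) (h : O (P := P) 0 ⟶ O 0) (i : ℤ) :
    Sh ρ 0 (by omega) * hh ρ h i = hh ρ h (i + 1) * Sh ρ 0 (by omega) := by
  unfold hh
  rw [add_comm i 1, zpow_add, zpow_one]
  group

theorem hh_zero (ρ : O (P := P) 0 ⟶ O 2) (h : O (P := P) 0 ⟶ O 0) :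
    hh ρ h 0 = Pl h 8 3 (by omega) := by
  simp [hh]

theorem hh_one (ρ : O (P := P) 0 ⟶ O 2) (h : O (P := P) 0 ⟶ O 0) :
    hh ρ h 1 = Pl h 8 5 (by omega) := by
  have h1 := hh_s ρ h 0
  rw [hh_zero, zero_add] at h1
  have h2 : Sh ρ 0 (by omega) * Pl h 8 3 (by omega) = Pl h 8 5 (by omega) * Sh ρ 0 (by omega) :=
    Sh_shift ρ 0 (by omega) h 3 (by omega) (by omega)
  rw [h2] at h1
  exact (mul_right_cancel h1).symm

theorem hh_right (ρ : O (P := P) 0 ⟶ O 2) (h : O (P := P) 0 ⟶ O 0) (n : ℕ) :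
    hh ρ h (n + 2) = Pl (mr ρ h n) 8 7 (by omega) := by
  induction n with
  | zero =>
    have h1 := hh_s ρ h 1
    rw [hh_one] at h1
    have h2 : Sh ρ 0 (by omega) * Pl h 8 5 (by omega) =
        Pl h 8 7 (by omega) * Sh ρ 0 (by omega) :=
      Sh_shift ρ 0 (by omega) h 5 (by omega) (by omega)
    rw [h2] at h1
    have h3 := mul_right_cancel h1
    have h4 : Pl (mr ρ h 0) 8 7 (by omega) = Pl h 8 7 (by omega) :=
      Pl_Pl h 0 7 7 (by omega) (by omega) rfl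
    rw [h4, h3]
    norm_num
  | succ n ih =>
    have h1 := hh_s ρ h (n + 2)
    rw [ih] at h1
    have h2 : Sh ρ 0 (by omega) * Pl (mr ρ h n) 8 7 (by omega) =
        Pl (mr ρ h (n + 1)) 8 7 (by omega) * Sh ρ 0 (by omega) :=
      Sh_tail ρ 0 (by omega) (mr ρ h n)
    rw [h2] at h1
    have h3 := mul_right_cancel h1
    rw [h3]
    congr 1

theorem hh_left (ρ : O (P := P) 0 ⟶ O 2) (h : O (P := P) 0 ⟶ O 0) (n : ℕ) :
    hh ρ h (-(n + 1)) = Pl (ml ρ h n) 8 0 (by omega) := by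
  induction n with
  | zero =>
    have h1 := hh_s ρ h (-1)
    rw [neg_add_cancel, hh_zero] at h1
    have h2 : Sh ρ 0 (by omega) * Pl h 8 1 (by omega) =
        Pl h 8 3 (by omega) * Sh ρ 0 (by omega) :=
      Sh_shift ρ 0 (by omega) h 1 (by omega) (by omega)
    rw [← h2] at h1
    have h3 := mul_left_cancel h1
    have h4 : Pl (ml ρ h 0) 8 0 (by omega) = Pl h 8 1 (by omega) :=
      Pl_Pl h 1 0 1 (by omega) (by omega) rfl
    rw [h4, ← h3]
    norm_num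
  | succ n ih =>
    have h1 := hh_s ρ h (-(((n + 1 : ℕ) : ℤ) + 1))
    have e : -(((n + 1 : ℕ) : ℤ) + 1) + 1 = -((n : ℤ) + 1) := by push_cast; ring
    rw [e, ih] at h1
    have h2 : Sh ρ 0 (by omega) * Pl (ml ρ h (n + 1)) 8 0 (by omega) =
        Pl (ml ρ h n) 8 0 (by omega) * Sh ρ 0 (by omega) :=
      Sh_tail' ρ (ml ρ h n)
    rw [← h2] at h1
    exact mul_left_cancel h1

theorem gsys (ρ : O (P := P) 0 ⟶ O 2) (h : O (P := P) 0 ⟶ O 0) (t : O (P := P) 4 ⟶ O 4) :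
    GSys (Sh ρ 0 (by omega)) (Sh ρ 4 (by omega)) (Pl t 8 2 (by omega)) (hh ρ h) where
  s := hh_s ρ h
  r1 i hi := by
    rcases eq_or_lt_of_le hi with rfl | hi
    · rw [hh_zero]
      exact Sh_fix ρ 4 (by omega) h 3 (by omega)
    · obtain ⟨n, rfl⟩ : ∃ n : ℕ, i = -(n + 1) := ⟨(-i - 1).toNat, by omega⟩
      rw [hh_left]
      exact Sh_fix ρ 4 (by omega) _ 0 (by omega)
  r2 i hi := by
    rcases eq_or_lt_of_le hi with rfl | hi
    · have h1 := hh_right ρ h 0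
      have h4 : Pl (mr ρ h 0) 8 7 (by omega) = Pl h 8 7 (by omega) :=
        Pl_Pl h 0 7 7 (by omega) (by omega) rfl
      rw [h4] at h1
      have h5 : hh ρ h (1 + 1) = Pl h 8 7 (by omega) := by
        rw [← h1]; norm_num
      rw [h5, hh_one]
      exact Sh_shift ρ 4 (by omega) h 5 (by omega) (by omega)
    · obtain ⟨n, rfl⟩ : ∃ n : ℕ, i = n + 2 := ⟨(i - 2).toNat, by omega⟩
      have h1 := hh_right ρ h (n + 1)
      have e : (n : ℤ) + 2 + 1 = ((n + 1 : ℕ) : ℤ) + 2 := by push_cast; ring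
      rw [e, h1, hh_right]
      exact Sh_tail ρ 4 (by omega) (mr ρ h n)
  r3 i := by
    rcases lt_trichotomy i 0 with hi | rfl | hi
    · obtain ⟨n, rfl⟩ : ∃ n : ℕ, i = -(n + 1) := ⟨(-i - 1).toNat, by omega⟩
      rw [hh_left, hh_zero]
      exact (Pl_comm _ _ 0 3 (by omega) (by omega)).symm
    · rfl
    · rcases eq_or_lt_of_le (Int.add_one_le_iff.2 hi) with h1 | h1
      · rw [← h1, zero_add, hh_zero, hh_one]
        exact Pl_comm _ _ 3 5 (by omega) (by omega)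
      · obtain ⟨n, rfl⟩ : ∃ n : ℕ, i = n + 2 := ⟨(i - 2).toNat, by omega⟩
        rw [hh_zero, hh_right]
        exact Pl_comm _ _ 3 7 (by omega) (by omega)
  r4 i hi := by
    rcases hi with hi | hi
    · obtain ⟨n, rfl⟩ : ∃ n : ℕ, i = -(n + 1) := ⟨(-i - 1).toNat, by omega⟩
      rw [hh_left]
      exact (Pl_comm _ _ 0 2 (by omega) (by omega)).symm
    · obtain ⟨n, rfl⟩ : ∃ n : ℕ, i = n + 2 := ⟨(i - 2).toNat, by omega⟩
      rw [hh_right]
      exact Pl_comm _ _ 2 7 (by omega) (by omega)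

end Pool.Agent.LibDiag
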