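import Pool.Agent.LibDiag.Rel2

namespace Pool.Agent.LibDiag

open CategoryTheory
open scoped commutatorElement

/-- forward map -/
def fwd (k i : ℕ) (z : ℕ × ℕ) : ℕ × ℕ :=
  if z.1 < i then z else if z.1 = i then (i + z.2 % (k + 1), z.2 / (k + 1)) else (z.1 + k, z.2)

/-- backward map -/
def bwd (k i : ℕ) (z : ℕ × ℕ) : ℕ × ℕ :=
  if z.1 < i then z else if z.1 ≤ i + k then (i, z.2 * (k + 1) + (z.1 - i)) else (z.1 - k, z.2)

theorem fwd_lt {k i j n : ℕ} (h : j < i) : fwd k i (j, n) = (j, n) := if_pos h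

theorem fwd_eq (k i n : ℕ) : fwd k i (i, n) = (i + n % (k + 1), n / (k + 1)) := by
  simp [fwd]

theorem fwd_gt {k i j n : ℕ} (h : i < j) : fwd k i (j, n) = (j + k, n) := by
  simp [fwd, not_lt.2 h.le, h.ne']

theorem bwd_lt {k i j n : ℕ} (h : j < i) : bwd k i (j, n) = (j, n) := if_pos h

theorem bwd_mid {k i n r : ℕ} (h : r ≤ k) : bwd k i (i + r, n) = (i, n * (k + 1) + r) := by
  simp [bwd, h]

theorem bwd_gt {k i j n : ℕ} (h : i < j) : bwd k i (j + k, n) = (j, n) := by
  unfold bwd
  simp only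
  rw [if_neg (by omega), if_neg (by omega), Nat.add_sub_cancel]

theorem bwd_fwd (k i : ℕ) (z : ℕ × ℕ) : bwd k i (fwd k i z) = z := by
  obtain ⟨j, n⟩ := z
  rcases lt_trichotomy j i with h | h | h
  · rw [fwd_lt h, bwd_lt h]
  · subst h
    have h1 : n % (k + 1) ≤ k := Nat.lt_succ_iff.1 (Nat.mod_lt n (Nat.succ_pos k))
    rw [fwd_eq, bwd_mid h1, mul_comm, Nat.div_add_mod]
  · rw [fwd_gt h, bwd_gt h]

theorem fwd_bwd (k i : ℕ) (z : ℕ × ℕ) : fwd k i (bwd k i z) = z := by
  obtain ⟨j, n⟩ := z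
  by_cases h : j < i
  · rw [bwd_lt h, fwd_lt h]
  · by_cases h' : j ≤ i + k
    · obtain ⟨r, rfl⟩ := Nat.exists_eq_add_of_le (not_lt.1 h)
      have hr : r ≤ k := by omega
      rw [bwd_mid hr, fwd_eq, mul_comm, Nat.mul_add_mod, Nat.mul_add_div (Nat.succ_pos k),
        Nat.div_eq_of_lt (Nat.lt_succ_of_le hr), Nat.mod_eq_of_lt (Nat.lt_succ_of_le hr),
        add_zero]
    · obtain ⟨r, rfl⟩ := Nat.exists_eq_add_of_le (show k ≤ j by omega)
      have hr : i < r := by omega
      rw [add_comm k r, bwd_gt hr, fwd_gt hr]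

/-- the permutation of an edge -/
def R (k i : ℕ) : Equiv.Perm (ℕ × ℕ) where
  toFun := fwd k i
  invFun := bwd k i
  left_inv := bwd_fwd k i
  right_inv := fwd_bwd k i

theorem R_comm (k l i j : ℕ) (h : i < j) : R l (j + k) * R k i = R k i * R l j := by
  ext1 z
  obtain ⟨m, n⟩ := z
  change fwd l (j + k) (fwd k i (m, n)) = fwd k i (fwd l j (m, n))
  have hmod : n % (k + 1) ≤ k := Nat.lt_succ_iff.1 (Nat.mod_lt n (Nat.succ_pos k))
  rcases lt_trichotomy m i with h1 | h1 | h1
  · rw [fwd_lt h1, fwd_lt (show m < j + k by omega), fwd_lt (show m < j by omega), fwd_lt h1]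
  · subst h1
    rw [fwd_eq, fwd_lt (by omega), fwd_lt h, fwd_eq]
  · rcases lt_trichotomy m j with h2 | h2 | h2
    · rw [fwd_gt h1, fwd_lt (by omega), fwd_lt h2, fwd_gt h1]
    · subst h2
      rw [fwd_gt h1, fwd_eq, fwd_eq, fwd_gt (by omega), Nat.add_right_comm]
    · rw [fwd_gt h1, fwd_gt (by omega), fwd_gt h2, fwd_gt (by omega), Nat.add_right_comm]

theorem P3_u {u v : List Unit} (h : (u, v) ∈ P3.rels) : u = [()] := by
  rcases h with h | h
  · exact congrArg Prod.fst h
  · exact congrArg Prod.fst (Set.mem_singleton_iff.1 h)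

theorem P3_v {u v : List Unit} (h : (u, v) ∈ P3.rels) : v.length = (v.length - 1) + 1 := by
  have := P3.right_ne _ h
  have h1 : v ≠ [] := this
  have h2 := List.length_pos_iff.2 h1
  omega

/-- the representation on the quiver -/
def RPre : Vtx P3 ⥤q SingleObj (Equiv.Perm (ℕ × ℕ)) where
  obj _ := SingleObj.star _
  map e := R (e.v.length - 1) e.pre.length

/-- the representation on the fundamental groupoid -/
def RFun : Squier P3 ⥤ SingleObj (Equiv.Perm (ℕ × ℕ)) :=
  CategoryTheory.Quotient.lift (Square P3) (Quiver.FreeGroupoid.lift RPre) (by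
    rintro _ _ _ _ ⟨X, Y, Z, W, a, b, c, u, v, u', v', h, h', hX1, hY1, hY2, hZ2, hX2, hW2,
      hW1, hZ1⟩
    rw [Functor.map_comp, Functor.map_comp]
    rw [lift_edgeHom, lift_edgeHom, lift_edgeHom, lift_edgeHom]
    have h1 := R_comm (v.length - 1) (v'.length - 1) a.length ((a ++ u ++ b).length)
      (by rw [P3_u h]; simp only [List.length_append, List.length_cons, List.length_nil]; omega)
    have h2 : (a ++ u ++ b).length + (v.length - 1) = (a ++ v ++ b).length := by
      have := P3_v h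
      rw [P3_u h]
      simp only [List.length_append, List.length_cons, List.length_nil]
      omega
    rw [h2] at h1
    exact h1)

theorem RFun_eps {x y : Squier P3} (e : Edge P3 (vx x) (vx y)) :
    RFun.map (eps e) = R (e.v.length - 1) e.pre.length := lift_edgeHom RPre e

/-- edges as morphisms between the objects `O n` -/
def ed (k i n m : ℕ) (hk : k = 1 ∨ k = 2) (hi : i ≤ n) (hm : m = n + k) :
    O (P := P3) n ⟶ O m :=
  eps (x := O n) (y := O m) ⟨List.replicate i (), List.replicate (n - i) (), [()],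
    List.replicate (k + 1) (),
    by rcases hk with rfl | rfl
       · exact Or.inl rfl
       · exact Or.inr rfl,
    by
      apply unit_list_ext
      change (List.replicate (n + 1) ()).length = _
      simp only [List.length_append, List.length_replicate, List.length_cons, List.length_nil]
      omega,
    by
      apply unit_list_ext
      change (List.replicate (m + 1) ()).length = _
      simp only [List.length_append, List.length_replicate]
      omega⟩

/-- the homomorphism to permutations -/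
noncomputable def Ph {m n : ℕ} (p : O (P := P3) m ⟶ O n) : Equiv.Perm (ℕ × ℕ) :=
  (show Equiv.Perm (ℕ × ℕ) from RFun.map p)

theorem Ph_comp {m n l : ℕ} (p : O (P := P3) m ⟶ O n) (q : O (P := P3) n ⟶ O l) :
    Ph (p ≫ q) = Ph q * Ph p := RFun.map_comp p q

theorem Ph_inv {m n : ℕ} (p : O (P := P3) m ⟶ O n) : Ph (inv p) = (Ph p)⁻¹ := by
  have h : Ph (inv p) * Ph p = 1 := by
    rw [← Ph_comp, IsIso.hom_inv_id]
    exact RFun.map_id _
  exact eq_inv_of_mul_eq_one_left h

theorem Ph_ed (k i n m : ℕ) (hk : k = 1 ∨ k = 2) (hi : i ≤ n) (hm : m = n + k) :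
    Ph (ed k i n m hk hi hm) = R k i := by
  unfold Ph ed
  rw [RFun_eps]
  simp

theorem Ph_U_ed (a b n' m' k i n m : ℕ) (hk : k = 1 ∨ k = 2) (hi : i ≤ n) (hm : m = n + k)
    (h1 : n' = a + n + b) (h2 : m' = a + m + b) :
    Ph (U a b h1 h2 (ed k i n m hk hi hm)) = R k (a + i) := by
  unfold Ph ed U V
  rw [W_eps, RFun_eps]
  simp [wEdge]

end Pool.Agent.LibDiag
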