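import Mathlib

namespace Pool.Agent.LibDiag

open CategoryTheory

/-- A semigroup presentation over the alphabet `A`: a set of relations `u = v` between nonempty
words, a relation `u = v` being recorded as the ordered pair `(u, v)`. -/
structure SgPres (A : Type) where
  /-- the relations -/
  rels : Set (List A × List A)
  left_ne : ∀ r ∈ rels, r.1 ≠ []
  right_ne : ∀ r ∈ rels, r.2 ≠ []

/-- The one-letter presentation `⟨x | x = x², x = x³⟩`; the letter `x` is the element `()` of
`Unit`. -/
def P3 : SgPres Unit where
  rels := {([()], [(), ()]), ([()], [(), (), ()])}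
  left_ne := by
    rintro r (rfl | rfl) <;> simp
  right_ne := by
    rintro r (rfl | rfl) <;> simp

/-- The vertices of the Squier complex: the nonempty words over `A`. -/
@[ext]
structure Vtx {A : Type} (P : SgPres A) where
  /-- the word -/
  word : List A
  ne : word ≠ []

/-- The edges of the Squier complex: for all words `pre`, `post` and each relation `u = v` of `P`,
one edge from `pre ++ u ++ post` to `pre ++ v ++ post`. -/
@[ext]
structure Edge {A : Type} (P : SgPres A) (x y : Vtx P) where
  /-- the part of the word in front of the rewritten subword -/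
  pre : List A
  /-- the part of the word behind the rewritten subword -/
  post : List A
  /-- left side of the relation -/
  u : List A
  /-- right side of the relation -/
  v : List A
  mem : (u, v) ∈ P.rels
  src : x.word = pre ++ u ++ post
  tgt : y.word = pre ++ v ++ post

/-- The 1-skeleton of the Squier complex. -/
instance {A : Type} (P : SgPres A) : Quiver (Vtx P) := ⟨Edge P⟩

/-- An edge of the Squier complex, seen as a morphism of the free groupoid on the 1-skeleton. -/
def edgeHom {A : Type} {P : SgPres A} {x y : Vtx P} (e : Edge P x y) :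
    (Quiver.FreeGroupoid.of (Vtx P)).obj x ⟶ (Quiver.FreeGroupoid.of (Vtx P)).obj y :=
  (Quiver.FreeGroupoid.of (Vtx P)).map e

/-- The squares of the Squier complex: for all words `a`, `b`, `c` and relations `u = v`,
`u' = v'` of `P`, the two ways around the square with corners `a u b u' c`, `a v b u' c`,
`a v b v' c`, `a u b v' c`. -/
inductive Square {A : Type} (P : SgPres A) : HomRel (Quiver.FreeGroupoid (Vtx P))
  | mk (X Y Z W : Vtx P) (a b c u v u' v' : List A)
      (h : (u, v) ∈ P.rels) (h' : (u', v') ∈ P.rels)
      (hX1 : X.word = a ++ u ++ (b ++ u' ++ c)) (hY1 : Y.word = a ++ v ++ (b ++ u' ++ c))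
      (hY2 : Y.word = (a ++ v ++ b) ++ u' ++ c) (hZ2 : Z.word = (a ++ v ++ b) ++ v' ++ c)
      (hX2 : X.word = (a ++ u ++ b) ++ u' ++ c) (hW2 : W.word = (a ++ u ++ b) ++ v' ++ c)
      (hW1 : W.word = a ++ u ++ (b ++ v' ++ c)) (hZ1 : Z.word = a ++ v ++ (b ++ v' ++ c)) :
      Square P
        (edgeHom (⟨a, b ++ u' ++ c, u, v, h, hX1, hY1⟩ : Edge P X Y) ≫
          edgeHom (⟨a ++ v ++ b, c, u', v', h', hY2, hZ2⟩ : Edge P Y Z))
        (edgeHom (⟨a ++ u ++ b, c, u', v', h', hX2, hW2⟩ : Edge P X W) ≫
          edgeHom (⟨a, b ++ v' ++ c, u, v, h, hW1, hZ1⟩ : Edge P W Z))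

/-- The fundamental groupoid (on the set of vertices) of the Squier complex of `P`: the free
groupoid on the 1-skeleton modulo the squares. -/
abbrev Squier {A : Type} (P : SgPres A) := CategoryTheory.Quotient (Square P)

/-- The object of the fundamental groupoid given by a vertex of the Squier complex. -/
def pt {A : Type} {P : SgPres A} (w : Vtx P) : Squier P :=
  ⟨(Quiver.FreeGroupoid.of (Vtx P)).obj w⟩

/-- The diagram group `D(P, w)`: the fundamental group of the Squier complex of `P` at the vertex
`w`. -/
abbrev DiagramGroup {A : Type} (P : SgPres A) (w : Vtx P) := pt w ⟶ pt w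

noncomputable instance {A : Type} (P : SgPres A) (w : Vtx P) : Group (DiagramGroup P w) :=
  CategoryTheory.Groupoid.vertexGroup (pt w)

end Pool.Agent.LibDiag
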