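import Pool.Agent.LibDiag.Squier

namespace Pool.Agent.LibDiag

open CategoryTheory

variable {A : Type} {P : SgPres A}

/-- the word of an object -/
def wd (x : Squier P) : List A := x.as.as.word

/-- the vertex of an object -/
def vx (x : Squier P) : Vtx P := x.as.as

theorem wd_ne (x : Squier P) : wd x ≠ [] := x.as.as.ne

theorem obj_ext {x y : Squier P} (h : wd x = wd y) : x = y := by
  obtain ⟨⟨⟨x, hx⟩⟩⟩ := x
  obtain ⟨⟨⟨y, hy⟩⟩⟩ := y
  simp only [wd] at h
  subst h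
  rfl

/-- The morphism of an edge. -/
def eps {x y : Squier P} (e : Edge P (vx x) (vx y)) : x ⟶ y :=
  (CategoryTheory.Quotient.functor (Square P)).map (edgeHom e)

theorem squier_ind (motive : ∀ {x y : Squier P}, (x ⟶ y) → Prop)
    (hid : ∀ x : Squier P, motive (𝟙 x))
    (hcomp : ∀ {x y z : Squier P} (p : x ⟶ y) (q : y ⟶ z), motive p → motive q → motive (p ≫ q))
    (hinv : ∀ {x y : Squier P} (p : x ⟶ y), motive p → motive (inv p))
    (hedge : ∀ {x y : Squier P} (e : Edge P (vx x) (vx y)), motive (eps e)) :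
    ∀ {x y : Squier P} (p : x ⟶ y), motive p := by
  intro x y p
  obtain ⟨⟨x⟩⟩ := x
  obtain ⟨⟨y⟩⟩ := y
  obtain ⟨⟨p⟩⟩ := p
  let F : Paths (Quiver.Symmetrify (Vtx P)) ⥤ Squier P :=
    CategoryTheory.Quotient.functor _ ⋙ CategoryTheory.Quotient.functor (Square P)
  have key : ∀ {x y : Paths (Quiver.Symmetrify (Vtx P))} (p : x ⟶ y), motive (F.map p) := by
    apply Paths.induction
    · intro v
      rw [F.map_id]
      exact hid _
    · intro u v w q f ih
      rw [F.map_comp]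
      refine hcomp _ _ ih ?_
      rcases f with e | e
      · exact hedge (x := pt v) (y := pt w) e
      · have h2 := hinv _ (hedge (x := pt w) (y := pt v) e)
        rw [← Groupoid.inv_eq_inv] at h2
        exact h2
  exact key p

theorem eps_comp_eps {X Y Z W : Squier P} (e1 : Edge P (vx X) (vx Y)) (e2 : Edge P (vx Y) (vx Z))
    (e3 : Edge P (vx X) (vx W)) (e4 : Edge P (vx W) (vx Z)) (b : List A)
    (h1 : e1.post = b ++ e2.u ++ e2.post) (h2 : e2.pre = e1.pre ++ e1.v ++ b)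
    (h3 : e3.pre = e1.pre ++ e1.u ++ b) (h4 : e3.post = e2.post) (h5 : e3.u = e2.u)
    (h6 : e3.v = e2.v) (h7 : e4.pre = e1.pre) (h8 : e4.post = b ++ e2.v ++ e2.post)
    (h9 : e4.u = e1.u) (h10 : e4.v = e1.v) :
    eps e1 ≫ eps e2 = eps e3 ≫ eps e4 := by
  obtain ⟨p1, q1, u1, v1, m1, s1, t1⟩ := e1
  obtain ⟨p2, q2, u2, v2, m2, s2, t2⟩ := e2
  obtain ⟨p3, q3, u3, v3, m3, s3, t3⟩ := e3
  obtain ⟨p4, q4, u4, v4, m4, s4, t4⟩ := e4
  simp only at h1 h2 h3 h4 h5 h6 h7 h8 h9 h10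
  subst h1 h2 h3 h4 h5 h6 h7 h8 h9 h10
  exact CategoryTheory.Quotient.sound (Square P)
    (Square.mk (vx X) (vx Y) (vx Z) (vx W) _ b _ _ _ _ _ m1 m2 _ _ _ _ _ _ _ _)

/-- whiskering of an edge -/
def wEdge (a b : List A) {x y x' y' : Vtx P} (hx : x'.word = a ++ x.word ++ b)
    (hy : y'.word = a ++ y.word ++ b) (e : Edge P x y) : Edge P x' y' :=
  ⟨a ++ e.pre, e.post ++ b, e.u, e.v, e.mem, by rw [hx, e.src]; simp, by rw [hy, e.tgt]; simp⟩

/-- whiskering of a vertex -/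
def wVtx (a b : List A) (x : Vtx P) : Vtx P := ⟨a ++ x.word ++ b, by simp [x.ne]⟩

/-- whiskering on the quiver -/
def wPre (a b : List A) : Vtx P ⥤q Squier P where
  obj x := pt (wVtx a b x)
  map e := eps (x := pt (wVtx a b _)) (y := pt (wVtx a b _)) (wEdge a b rfl rfl e)

/-- whiskering on the free groupoid -/
def wFree (a b : List A) : Quiver.FreeGroupoid (Vtx P) ⥤ Squier P :=
  Quiver.FreeGroupoid.lift (wPre a b)

theorem lift_edgeHom {D : Type*} [Groupoid D] (F : Vtx P ⥤q D) {x y : Vtx P} (e : Edge P x y) :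
    (Quiver.FreeGroupoid.lift F).map (edgeHom e) = F.map e := by
  exact Category.id_comp (F.map e)

/-- whiskering on the fundamental groupoid -/
def wFun (a b : List A) : Squier P ⥤ Squier P :=
  CategoryTheory.Quotient.lift (Square P) (wFree a b) (by
    rintro _ _ _ _ ⟨X, Y, Z, W, a', b', c', u, v, u', v', h, h', hX1, hY1, hY2, hZ2, hX2, hW2,
      hW1, hZ1⟩
    rw [Functor.map_comp, Functor.map_comp]
    unfold wFree
    rw [lift_edgeHom, lift_edgeHom, lift_edgeHom, lift_edgeHom]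
    refine eps_comp_eps _ _ _ _ b' ?_ ?_ ?_ ?_ ?_ ?_ ?_ ?_ ?_ ?_ <;> simp [wEdge])

theorem wFun_eps (a b : List A) {x y : Squier P} (e : Edge P (vx x) (vx y)) :
    (wFun a b).map (eps e) =
      eps (x := pt (wVtx a b (vx x))) (y := pt (wVtx a b (vx y))) (wEdge a b rfl rfl e) :=
  lift_edgeHom (wPre a b) e

/-- whiskering with prescribed end points -/
def W (a b : List A) {x y x' y' : Squier P} (hx : wd x' = a ++ wd x ++ b)
    (hy : wd y' = a ++ wd y ++ b) (p : x ⟶ y) : x' ⟶ y' :=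
  eqToHom (obj_ext (y := (wFun a b).obj x) hx) ≫ (wFun a b).map p ≫
    eqToHom (obj_ext (y := (wFun a b).obj y) hy).symm

theorem W_id (a b : List A) {x x' : Squier P} (hx hy : wd x' = a ++ wd x ++ b) :
    W a b hx hy (𝟙 x) = 𝟙 x' := by
  simp [W]

theorem W_comp (a b : List A) {x y z x' y' z' : Squier P} (hx : wd x' = a ++ wd x ++ b)
    (hy : wd y' = a ++ wd y ++ b) (hz : wd z' = a ++ wd z ++ b) (p : x ⟶ y) (q : y ⟶ z) :
    W a b hx hz (p ≫ q) = W a b hx hy p ≫ W a b hy hz q := by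
  simp [W]

theorem W_inv (a b : List A) {x y x' y' : Squier P} (hx : wd x' = a ++ wd x ++ b)
    (hy : wd y' = a ++ wd y ++ b) (p : x ⟶ y) :
    W a b hy hx (inv p) = inv (W a b hx hy p) := by
  simp [W]

theorem W_eps (a b : List A) {x y x' y' : Squier P} (hx : wd x' = a ++ wd x ++ b)
    (hy : wd y' = a ++ wd y ++ b) (e : Edge P (vx x) (vx y)) :
    W a b hx hy (eps e) = eps (wEdge a b hx hy e) := by
  obtain ⟨⟨x'⟩⟩ := x'
  obtain ⟨⟨y'⟩⟩ := y'
  have h1 : x' = wVtx a b (vx x) := Vtx.ext hx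
  have h2 : y' = wVtx a b (vx y) := Vtx.ext hy
  subst h1 h2
  unfold W
  rw [wFun_eps]
  exact (Category.id_comp _).trans (Category.comp_id _)

end Pool.Agent.LibDiag
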