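import Pool.Agent.LibDiag.Squier2

namespace Pool.Agent.LibDiag

open CategoryTheory

variable {A : Type} {P : SgPres A}

theorem wd_pt (l : List A) (h : l ≠ []) : wd (pt (P := P) ⟨l, h⟩) = l := rfl

theorem eps_congr {x y : Squier P} (e f : Edge P (vx x) (vx y)) (h1 : e.pre = f.pre)
    (h2 : e.post = f.post) (h3 : e.u = f.u) (h4 : e.v = f.v) : eps e = eps f := by
  rw [Edge.ext h1 h2 h3 h4]

theorem W_W {x y : Squier P} (p : x ⟶ y) : ∀ (a b c d : List A) {x' y' x'' y'' : Squier P}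
    (h1 : wd x' = c ++ wd x ++ d) (h2 : wd y' = c ++ wd y ++ d)
    (h3 : wd x'' = a ++ wd x' ++ b) (h4 : wd y'' = a ++ wd y' ++ b)
    (h5 : wd x'' = (a ++ c) ++ wd x ++ (d ++ b)) (h6 : wd y'' = (a ++ c) ++ wd y ++ (d ++ b)),
    W a b h3 h4 (W c d h1 h2 p) = W (a ++ c) (d ++ b) h5 h6 p := by
  refine squier_ind (fun {x y} p => ∀ (a b c d : List A) {x' y' x'' y'' : Squier P}
    (h1 : wd x' = c ++ wd x ++ d) (h2 : wd y' = c ++ wd y ++ d)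
    (h3 : wd x'' = a ++ wd x' ++ b) (h4 : wd y'' = a ++ wd y' ++ b)
    (h5 : wd x'' = (a ++ c) ++ wd x ++ (d ++ b)) (h6 : wd y'' = (a ++ c) ++ wd y ++ (d ++ b)),
    W a b h3 h4 (W c d h1 h2 p) = W (a ++ c) (d ++ b) h5 h6 p) ?_ ?_ ?_ ?_ p
  · intro x a b c d x' y' x'' y'' h1 h2 h3 h4 h5 h6
    obtain rfl : x' = y' := obj_ext (h1.trans h2.symm)
    obtain rfl : x'' = y'' := obj_ext (h3.trans h4.symm)
    rw [W_id, W_id, W_id]
  · intro x y z p q hp hq a b c d x' z' x'' z'' h1 h2 h3 h4 h5 h6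
    let y' : Squier P := pt ⟨c ++ wd y ++ d, by simp [wd_ne y]⟩
    let y'' : Squier P := pt ⟨a ++ (c ++ wd y ++ d) ++ b, by simp [wd_ne y]⟩
    have k1 : wd y' = c ++ wd y ++ d := rfl
    have k3 : wd y'' = a ++ wd y' ++ b := rfl
    have k5 : wd y'' = (a ++ c) ++ wd y ++ (d ++ b) := by
      rw [k3, k1]; simp only [List.append_assoc]
    rw [W_comp c d h1 k1 h2, W_comp a b h3 k3 h4, W_comp (a ++ c) (d ++ b) h5 k5 h6,
      hp a b c d h1 k1 h3 k3 h5 k5, hq a b c d k1 h2 k3 h4 k5 h6]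
  · intro x y p hp a b c d x' z' x'' z'' h1 h2 h3 h4 h5 h6
    rw [W_inv, W_inv, W_inv, hp]
  · intro x y e a b c d x' z' x'' z'' h1 h2 h3 h4 h5 h6
    rw [W_eps, W_eps, W_eps]
    apply eps_congr <;> simp [wEdge]

theorem interchange_edge {x y : Squier P} (e : Edge P (vx x) (vx y)) {z w : Squier P} (q : z ⟶ w) :
    ∀ (a b c : List A) {X Y Z V : Squier P}
    (hX1 : wd X = a ++ wd x ++ (b ++ wd z ++ c)) (hY1 : wd Y = a ++ wd y ++ (b ++ wd z ++ c))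
    (hY2 : wd Y = (a ++ wd y ++ b) ++ wd z ++ c) (hZ2 : wd Z = (a ++ wd y ++ b) ++ wd w ++ c)
    (hX2 : wd X = (a ++ wd x ++ b) ++ wd z ++ c) (hV2 : wd V = (a ++ wd x ++ b) ++ wd w ++ c)
    (hV1 : wd V = a ++ wd x ++ (b ++ wd w ++ c)) (hZ1 : wd Z = a ++ wd y ++ (b ++ wd w ++ c)),
    W a (b ++ wd z ++ c) hX1 hY1 (eps e) ≫ W (a ++ wd y ++ b) c hY2 hZ2 q =
      W (a ++ wd x ++ b) c hX2 hV2 q ≫ W a (b ++ wd w ++ c) hV1 hZ1 (eps e) := by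
  refine squier_ind (fun {z w} q => ∀ (a b c : List A) {X Y Z V : Squier P}
    (hX1 : wd X = a ++ wd x ++ (b ++ wd z ++ c)) (hY1 : wd Y = a ++ wd y ++ (b ++ wd z ++ c))
    (hY2 : wd Y = (a ++ wd y ++ b) ++ wd z ++ c) (hZ2 : wd Z = (a ++ wd y ++ b) ++ wd w ++ c)
    (hX2 : wd X = (a ++ wd x ++ b) ++ wd z ++ c) (hV2 : wd V = (a ++ wd x ++ b) ++ wd w ++ c)
    (hV1 : wd V = a ++ wd x ++ (b ++ wd w ++ c)) (hZ1 : wd Z = a ++ wd y ++ (b ++ wd w ++ c)),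
    W a (b ++ wd z ++ c) hX1 hY1 (eps e) ≫ W (a ++ wd y ++ b) c hY2 hZ2 q =
      W (a ++ wd x ++ b) c hX2 hV2 q ≫ W a (b ++ wd w ++ c) hV1 hZ1 (eps e)) ?_ ?_ ?_ ?_ q
  · intro z a b c X Y Z V hX1 hY1 hY2 hZ2 hX2 hV2 hV1 hZ1
    obtain rfl : Y = Z := obj_ext (hY2.trans hZ2.symm)
    obtain rfl : X = V := obj_ext (hX2.trans hV2.symm)
    rw [W_id, W_id, Category.id_comp, Category.comp_id]
  · intro z t w q q' hq hq' a b c X Y Z V hX1 hY1 hY2 hZ2 hX2 hV2 hV1 hZ1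
    let T : Squier P := pt ⟨(a ++ wd y ++ b) ++ wd t ++ c, by simp [wd_ne y]⟩
    let U : Squier P := pt ⟨(a ++ wd x ++ b) ++ wd t ++ c, by simp [wd_ne x]⟩
    have hT : wd T = (a ++ wd y ++ b) ++ wd t ++ c := rfl
    have hU : wd U = (a ++ wd x ++ b) ++ wd t ++ c := rfl
    have hT' : wd T = a ++ wd y ++ (b ++ wd t ++ c) := by
      rw [hT]; simp only [List.append_assoc]
    have hU' : wd U = a ++ wd x ++ (b ++ wd t ++ c) := by
      rw [hU]; simp only [List.append_assoc]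
    rw [W_comp _ _ hY2 hT hZ2, W_comp _ _ hX2 hU hV2, ← Category.assoc,
      hq a b c hX1 hY1 hY2 hT hX2 hU hU' hT', Category.assoc, Category.assoc,
      hq' a b c hU' hT' hT hZ2 hU hV2 hV1 hZ1]
  · intro z w q hq a b c X Y Z V hX1 hY1 hY2 hZ2 hX2 hV2 hV1 hZ1
    have := hq a b c hV1 hZ1 hZ2 hY2 hV2 hX2 hX1 hY1
    rw [W_inv _ _ hZ2 hY2, W_inv _ _ hV2 hX2, IsIso.comp_inv_eq, Category.assoc, this,
      IsIso.inv_hom_id_assoc]
  · intro z w e' a b c X Y Z V hX1 hY1 hY2 hZ2 hX2 hV2 hV1 hZ1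
    rw [W_eps, W_eps, W_eps, W_eps]
    refine eps_comp_eps _ _ _ _ (e.post ++ b ++ e'.pre) ?_ ?_ ?_ ?_ ?_ ?_ ?_ ?_ ?_ ?_
    · change e.post ++ (b ++ (vx z).word ++ c) = _
      rw [e'.src]; simp [wEdge]
    · change (a ++ (vx y).word ++ b) ++ e'.pre = _
      rw [e.tgt]; simp [wEdge]
    · change (a ++ (vx x).word ++ b) ++ e'.pre = _
      rw [e.src]; simp [wEdge]
    · simp [wEdge]
    · simp [wEdge]
    · simp [wEdge]
    · simp [wEdge]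
    · change e.post ++ (b ++ (vx w).word ++ c) = _
      rw [e'.tgt]; simp [wEdge]
    · simp [wEdge]
    · simp [wEdge]

/-- Two morphisms acting on disjoint parts of a word commute. -/
theorem interchange {x y : Squier P} (p : x ⟶ y) {z w : Squier P} (q : z ⟶ w) :
    ∀ (a b c : List A) {X Y Z V : Squier P}
    (hX1 : wd X = a ++ wd x ++ (b ++ wd z ++ c)) (hY1 : wd Y = a ++ wd y ++ (b ++ wd z ++ c))
    (hY2 : wd Y = (a ++ wd y ++ b) ++ wd z ++ c) (hZ2 : wd Z = (a ++ wd y ++ b) ++ wd w ++ c)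
    (hX2 : wd X = (a ++ wd x ++ b) ++ wd z ++ c) (hV2 : wd V = (a ++ wd x ++ b) ++ wd w ++ c)
    (hV1 : wd V = a ++ wd x ++ (b ++ wd w ++ c)) (hZ1 : wd Z = a ++ wd y ++ (b ++ wd w ++ c)),
    W a (b ++ wd z ++ c) hX1 hY1 p ≫ W (a ++ wd y ++ b) c hY2 hZ2 q =
      W (a ++ wd x ++ b) c hX2 hV2 q ≫ W a (b ++ wd w ++ c) hV1 hZ1 p := by
  refine squier_ind (fun {x y} p => ∀ (a b c : List A) {X Y Z V : Squier P}
    (hX1 : wd X = a ++ wd x ++ (b ++ wd z ++ c)) (hY1 : wd Y = a ++ wd y ++ (b ++ wd z ++ c))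
    (hY2 : wd Y = (a ++ wd y ++ b) ++ wd z ++ c) (hZ2 : wd Z = (a ++ wd y ++ b) ++ wd w ++ c)
    (hX2 : wd X = (a ++ wd x ++ b) ++ wd z ++ c) (hV2 : wd V = (a ++ wd x ++ b) ++ wd w ++ c)
    (hV1 : wd V = a ++ wd x ++ (b ++ wd w ++ c)) (hZ1 : wd Z = a ++ wd y ++ (b ++ wd w ++ c)),
    W a (b ++ wd z ++ c) hX1 hY1 p ≫ W (a ++ wd y ++ b) c hY2 hZ2 q =
      W (a ++ wd x ++ b) c hX2 hV2 q ≫ W a (b ++ wd w ++ c) hV1 hZ1 p) ?_ ?_ ?_ ?_ p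
  · intro x a b c X Y Z V hX1 hY1 hY2 hZ2 hX2 hV2 hV1 hZ1
    obtain rfl : X = Y := obj_ext (hX1.trans hY1.symm)
    obtain rfl : V = Z := obj_ext (hV1.trans hZ1.symm)
    rw [W_id, W_id, Category.id_comp, Category.comp_id]
  · intro x s y p p' hp hp' a b c X Y Z V hX1 hY1 hY2 hZ2 hX2 hV2 hV1 hZ1
    let S : Squier P := pt ⟨a ++ wd s ++ (b ++ wd z ++ c), by simp [wd_ne s]⟩
    let U : Squier P := pt ⟨a ++ wd s ++ (b ++ wd w ++ c), by simp [wd_ne s]⟩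
    have hS : wd S = a ++ wd s ++ (b ++ wd z ++ c) := rfl
    have hU : wd U = a ++ wd s ++ (b ++ wd w ++ c) := rfl
    have hS' : wd S = (a ++ wd s ++ b) ++ wd z ++ c := by
      rw [hS]; simp only [List.append_assoc]
    have hU' : wd U = (a ++ wd s ++ b) ++ wd w ++ c := by
      rw [hU]; simp only [List.append_assoc]
    rw [W_comp _ _ hX1 hS hY1, W_comp _ _ hV1 hU hZ1, Category.assoc,
      hp' a b c hS hY1 hY2 hZ2 hS' hU' hU hZ1, ← Category.assoc, ← Category.assoc,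
      hp a b c hX1 hS hS' hU' hX2 hV2 hV1 hU]
  · intro x y p hp a b c X Y Z V hX1 hY1 hY2 hZ2 hX2 hV2 hV1 hZ1
    have := hp a b c hY1 hX1 hX2 hV2 hY2 hZ2 hZ1 hV1
    rw [W_inv _ _ hY1 hX1, W_inv _ _ hZ1 hV1, IsIso.inv_comp_eq, ← Category.assoc,
      IsIso.eq_comp_inv, this]
  · intro x y e a b c X Y Z V hX1 hY1 hY2 hZ2 hX2 hV2 hV1 hZ1
    exact interchange_edge e q a b c hX1 hY1 hY2 hZ2 hX2 hV2 hV1 hZ1

end Pool.Agent.LibDiag
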