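import Pool.Agent.LibDiag.Squier3

namespace Pool.Agent.LibDiag

open CategoryTheory

variable {P : SgPres Unit}

theorem unit_list (l : List Unit) : l = List.replicate l.length () := by
  rw [List.eq_replicate_iff]
  exact ⟨rfl, fun _ _ => rfl⟩

theorem unit_list_ext {l l' : List Unit} (h : l.length = l'.length) : l = l' := by
  rw [unit_list l, unit_list l', h]

/-- the length of the word of an object -/
def ln (x : Squier P) : ℕ := (wd x).length

theorem obj_ext' {x y : Squier P} (h : ln x = ln y) : x = y := obj_ext (unit_list_ext h)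

/-- the object `x ^ (n + 1)` -/
def O (n : ℕ) : Squier P := pt ⟨List.replicate (n + 1) (), by simp⟩

theorem ln_O (n : ℕ) : ln (O (P := P) n) = n + 1 := by
  simp [ln, O, wd, pt, Quiver.FreeGroupoid.of]

theorem len_eq {x x' : Squier P} {a b : ℕ} (h : ln x' = a + ln x + b) :
    wd x' = List.replicate a () ++ wd x ++ List.replicate b () := by
  apply unit_list_ext
  simpa [ln, Nat.add_assoc] using h

/-- whiskering for a one-letter alphabet -/
def V (a b : ℕ) {x y x' y' : Squier P} (hx : ln x' = a + ln x + b) (hy : ln y' = a + ln y + b)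
    (p : x ⟶ y) : x' ⟶ y' :=
  W (List.replicate a ()) (List.replicate b ()) (len_eq hx) (len_eq hy) p

theorem V_eq {a b : ℕ} {x y x' y' : Squier P} (hx : ln x' = a + ln x + b)
    (hy : ln y' = a + ln y + b) (p : x ⟶ y) (la lb : List Unit) (ha : la.length = a)
    (hb : lb.length = b) (hx' : wd x' = la ++ wd x ++ lb) (hy' : wd y' = la ++ wd y ++ lb) :
    W la lb hx' hy' p = V a b hx hy p := by
  obtain rfl : la = List.replicate a () := unit_list_ext (by simpa using ha)
  obtain rfl : lb = List.replicate b () := unit_list_ext (by simpa using hb)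
  rfl

theorem V_id (a b : ℕ) {x x' : Squier P} (hx hy : ln x' = a + ln x + b) :
    V a b hx hy (𝟙 x) = 𝟙 x' := W_id _ _ _ _

theorem V_comp (a b : ℕ) {x y z x' y' z' : Squier P} (hx : ln x' = a + ln x + b)
    (hy : ln y' = a + ln y + b) (hz : ln z' = a + ln z + b) (p : x ⟶ y) (q : y ⟶ z) :
    V a b hx hz (p ≫ q) = V a b hx hy p ≫ V a b hy hz q := W_comp _ _ _ _ _ _ _

theorem V_inv (a b : ℕ) {x y x' y' : Squier P} (hx : ln x' = a + ln x + b)
    (hy : ln y' = a + ln y + b) (p : x ⟶ y) :
    V a b hy hx (inv p) = inv (V a b hx hy p) := W_inv _ _ _ _ _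

theorem V_V {x y : Squier P} (p : x ⟶ y) (a b c d e f : ℕ) {x' y' x'' y'' : Squier P}
    (h1 : ln x' = c + ln x + d) (h2 : ln y' = c + ln y + d)
    (h3 : ln x'' = a + ln x' + b) (h4 : ln y'' = a + ln y' + b)
    (h5 : ln x'' = e + ln x + f) (h6 : ln y'' = e + ln y + f) (he : a + c = e) :
    V a b h3 h4 (V c d h1 h2 p) = V e f h5 h6 p := by
  subst he
  obtain rfl : f = d + b := by omega
  rw [V, V, W_W p _ _ _ _ (len_eq h1) (len_eq h2) (len_eq h3) (len_eq h4)
    (by rw [len_eq h5, List.replicate_add, List.replicate_add])
    (by rw [len_eq h6, List.replicate_add, List.replicate_add])]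
  apply V_eq <;> simp

/-- Two morphisms acting on disjoint parts of a word commute. -/
theorem V_comm {x y : Squier P} (p : x ⟶ y) {z w : Squier P} (q : z ⟶ w) {a b1 b2 c1 c2 d : ℕ}
    {X Y Z U : Squier P}
    (hX1 : ln X = a + ln x + b1) (hY1 : ln Y = a + ln y + b1)
    (hY2 : ln Y = c1 + ln z + d) (hZ2 : ln Z = c1 + ln w + d)
    (hX2 : ln X = c2 + ln z + d) (hU2 : ln U = c2 + ln w + d)
    (hU1 : ln U = a + ln x + b2) (hZ1 : ln Z = a + ln y + b2) (hle : a + ln x ≤ c2) :
    V a b1 hX1 hY1 p ≫ V c1 d hY2 hZ2 q = V c2 d hX2 hU2 q ≫ V a b2 hU1 hZ1 p := by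
  obtain ⟨b, rfl⟩ := Nat.exists_eq_add_of_le hle
  have e1 : b1 = b + ln z + d := by omega
  have e2 : c1 = a + ln y + b := by omega
  have e3 : b2 = b + ln w + d := by omega
  subst e1 e2 e3
  have k1 : (List.replicate b () ++ wd z ++ List.replicate d ()).length = b + ln z + d := by
    simp [ln, Nat.add_assoc]
  have k2 : (List.replicate a () ++ wd y ++ List.replicate b ()).length = a + ln y + b := by
    simp [ln, Nat.add_assoc]
  have k3 : (List.replicate b () ++ wd w ++ List.replicate d ()).length = b + ln w + d := by
    simp [ln, Nat.add_assoc]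
  have k4 : (List.replicate a () ++ wd x ++ List.replicate b ()).length = a + ln x + b := by
    simp [ln, Nat.add_assoc]
  have hh := fun h1 h2 h3 h4 h5 h6 h7 h8 => interchange p q (List.replicate a ())
    (List.replicate b ()) (List.replicate d ()) (X := X) (Y := Y) (Z := Z) (V := U)
    h1 h2 h3 h4 h5 h6 h7 h8
  have l1 : wd X = List.replicate a () ++ wd x ++
      (List.replicate b () ++ wd z ++ List.replicate d ()) := by
    apply unit_list_ext; simp only [List.length_append, List.length_replicate]
    simp only [ln] at *; omega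
  have l2 : wd Y = List.replicate a () ++ wd y ++
      (List.replicate b () ++ wd z ++ List.replicate d ()) := by
    apply unit_list_ext; simp only [List.length_append, List.length_replicate]
    simp only [ln] at *; omega
  have l3 : wd Y = (List.replicate a () ++ wd y ++ List.replicate b ()) ++ wd z ++
      List.replicate d () := by
    apply unit_list_ext; simp only [List.length_append, List.length_replicate]
    simp only [ln] at *; omega
  have l4 : wd Z = (List.replicate a () ++ wd y ++ List.replicate b ()) ++ wd w ++
      List.replicate d () := by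
    apply unit_list_ext; simp only [List.length_append, List.length_replicate]
    simp only [ln] at *; omega
  have l5 : wd X = (List.replicate a () ++ wd x ++ List.replicate b ()) ++ wd z ++
      List.replicate d () := by
    apply unit_list_ext; simp only [List.length_append, List.length_replicate]
    simp only [ln] at *; omega
  have l6 : wd U = (List.replicate a () ++ wd x ++ List.replicate b ()) ++ wd w ++
      List.replicate d () := by
    apply unit_list_ext; simp only [List.length_append, List.length_replicate]
    simp only [ln] at *; omega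
  have l7 : wd U = List.replicate a () ++ wd x ++
      (List.replicate b () ++ wd w ++ List.replicate d ()) := by
    apply unit_list_ext; simp only [List.length_append, List.length_replicate]
    simp only [ln] at *; omega
  have l8 : wd Z = List.replicate a () ++ wd y ++
      (List.replicate b () ++ wd w ++ List.replicate d ()) := by
    apply unit_list_ext; simp only [List.length_append, List.length_replicate]
    simp only [ln] at *; omega
  have hh' := hh l1 l2 l3 l4 l5 l6 l7 l8
  rw [V_eq hX1 hY1 p _ _ (by simp) k1, V_eq hY2 hZ2 q _ _ k2 (by simp),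
    V_eq hX2 hU2 q _ _ k4 (by simp), V_eq hU1 hZ1 p _ _ (by simp) k3] at hh'
  exact hh'

end Pool.Agent.LibDiag
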